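import Pool.Agent.Helper49_ABB.Walk3

/-! # Walks in links (module WALK, MP_d857f1_al, part B): everything is proved in Walk1-Walk3 -/
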