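import Pool.Agent.Helper89_ABA.Pln2
import Pool.Agent.Helper17_ABA.Bdy

/-! # Walks in links: statements (module WALK, MP_d857f1_al, part B)

All walks are lists of letters with consecutive corners (`IsChain Cor`), NOT necessarily reduced
(unless `Red` is written). A walk `v` has `v.length - 1` corners.
-/

namespace Pool.Agent.ABA.B.H49

open Knd Pool.Agent.ABA Pool.Agent.ABA.B Pool.Agent.ABA.B.TG Pool.Agent.ABA.B.H17

/-! ## general level -/

/-- `v` is a walk from `a` to `b` -/
def Wk {V E : Type} (S : TG V E) (v : List E) (a b : E) : Prop :=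
  v.IsChain S.Cor ∧ v.head? = some a ∧ v.getLast? = some b

/-- (ODD) and (FOUR) -/
def OddFourStmt : Prop := ∀ (V E : Type) (S : TG V E), (∀ v, CRW S v → 6 ≤ v.length) →
  (∀ v : List E, (v ++ v.take 1).IsChain S.Cor → v.length ≠ 1 ∧ v.length ≠ 3 ∧ v.length ≠ 5) ∧
  (∀ a b c d, S.Cor a b → S.Cor b c → S.Cor c d → S.Cor d a → a = c ∨ b = d)

/-- two walks between `x` and `y`, both with at least two corners: in total at least six corners, or
both are `x, n, y` with the same `n` -/
def PairStmt : Prop := ∀ (V E : Type) (S : TG V E), (∀ v, CRW S v → 6 ≤ v.length) →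
  ∀ (p q : List E) (x y : E), Wk S p x y → Wk S q y x → x ≠ y → 3 ≤ p.length → 3 ≤ q.length →
    8 ≤ p.length + q.length ∨ ∃ n, p = [x, n, y] ∧ q = [y, n, x]

/-- the corners at a hub with three different letters: in total at least six, or one letter is
adjacent to the two others -/
def HubStmt : Prop := ∀ (V E : Type) (S : TG V E), (∀ v, CRW S v → 6 ≤ v.length) →
  ∀ (p q r : List E) (x y z : E), Wk S p x y → Wk S q y z → Wk S r z x → x ≠ y → y ≠ z → z ≠ x →
    9 ≤ p.length + q.length + r.length ∨ (S.Cor z x ∧ S.Cor x y) ∨ (S.Cor x y ∧ S.Cor y z) ∨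
      (S.Cor y z ∧ S.Cor z x)

/-- a closed walk through `x` and `e`, reduced at all other places: 1+1, 2+2 or at least six
corners -/
def AttStmt : Prop := ∀ (V E : Type) (S : TG V E), (∀ v, CRW S v → 6 ≤ v.length) →
  ∀ (p q : List E) (x e : E), Wk S p x e → Wk S q e x → Red p → Red q → x ≠ e →
    (p.length = 2 ∧ q.length = 2 ∧ S.Cor x e) ∨ (p.length = 3 ∧ q.length = 3) ∨
      8 ≤ p.length + q.length

/-- a closed walk with at least one corner has at least two corners -/
def LoopStmt : Prop := ∀ (V E : Type) (S : TG V E) (v : List E) (x : E), Wk S v x x →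
  2 ≤ v.length → 3 ≤ v.length

/-! ## kinds -/

/-- O-ends -/
def isO : Knd → Bool
  | up => true | vm => true | _ => false

/-- PQ-ends -/
def isPQ : Knd → Bool
  | um => true | vp => true | _ => false

theorem isO_kinv (k : Knd) : isO (kinv k) = isPQ k := by cases k <;> rfl
theorem isPQ_kinv (k : Knd) : isPQ (kinv k) = isO k := by cases k <;> rfl
theorem isO_not_PQ {k : Knd} (h : isO k = true) : isPQ k = false := by
  revert h; cases k <;> simp [isO, isPQ]

section

variable {G : Type} [Group G] {A B : Subgroup G} {g : G}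

/-- the first corner leaves the carrier of the first letter (for planes: T-corner) -/
def TFst (v : List (XE A B g)) : Prop := ∃ e f w, v = e :: f :: w ∧ car f ≠ car e

/-- the last corner comes from outside the carrier of the last letter -/
def TLst (v : List (XE A B g)) : Prop := ∃ w f e, v = w ++ [f, e] ∧ car f ≠ car e

end

/-! ## the triangle graph of `P` -/

/-- kinds at a T-first walk -/
def KndStmt : Prop := ∀ (G : Type) [Group G] (A B : Subgroup G) (g : G) (hg : ¬ IsABA A B g)
  (hgeo : Geo A B) (hι : Function.Injective (Pι A B g)),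
  ∀ (v : List (XE A B g)) (e e' : XE A B g), Wk (XX hg hgeo hι) v e e' → (kndE e).isH = true →
    TFst v → (isO (kndE e) = true ∨ isPQ (kndE e) = true)

/-- (TW) walks between different nodes of one hexagon, T-first and T-last: at least five corners, at
least six if the nodes are opposite or `V`, `U'` -/
def TWStmt : Prop := ∀ (G : Type) [Group G] (A B : Subgroup G) (g : G) (hg : ¬ IsABA A B g)
  (hgeo : Geo A B) (hι : Function.Injective (Pι A B g)), (∀ x ∈ A, ∀ y ∈ A, x * y = y * x) →
  ∀ (v : List (XE A B g)) (e e' : XE A B g), Wk (XX hg hgeo hι) v e e' → TFst v → TLst v →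
    (kndE e).isH = true → car e = car e' → e ≠ e' →
    6 ≤ v.length ∧ ((kndE e' = kinv (kndE e) ∨ (kndE e = vp ∧ kndE e' = um) ∨
      (kndE e = um ∧ kndE e' = vp)) → 7 ≤ v.length)

/-- (LL) -/
def LLStmt : Prop := ∀ (G : Type) [Group G] (A B : Subgroup G) (g : G) (hg : ¬ IsABA A B g)
  (hgeo : Geo A B) (hι : Function.Injective (Pι A B g)),
  ∀ (v : List (XE A B g)) (e e' : XE A B g), Wk (XX hg hgeo hι) v e e' →
    (kndE e).isH = false → (kndE e').isH = false → car e = car e' → e ≠ e' → 5 ≤ v.length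

/-- (EXC3) -/
def Exc3Stmt : Prop := ∀ (G : Type) [Group G] (A B : Subgroup G), Geo A B →
  (∀ x ∈ A, ∀ y ∈ A, x * y = y * x) → ∀ x, x ∉ A → ∀ y ∈ A, ∀ a ∈ A,
    (y ≠ 1 → a ≠ 1 → x * y * x⁻¹ * a * x ∉ A) ∧ x * a * x ∉ A

/-- (H2) single walks between different hexagons; `h` relates the hexagons -/
def H2Stmt : Prop := ∀ (G : Type) [Group G] (A B : Subgroup G) (g : G) (hg : ¬ IsABA A B g)
  (hgeo : Geo A B) (hι : Function.Injective (Pι A B g)),
  ∀ (v : List (XE A B g)) (e e' : XE A B g), Wk (XX hg hgeo hι) v e e' → TFst v → TLst v →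
    (kndE e).isH = true → (kndE e').isH = true →
    (isO (kndE e) = true ∨ isPQ (kndE e) = true) ∧
    (isO (kndE e') = true ∨ isPQ (kndE e') = true) ∧
    (isO (kndE e) = true → isPQ (kndE e') = true → 5 ≤ v.length) ∧
    (isPQ (kndE e) = true → isO (kndE e') = true → 5 ≤ v.length) ∧
    (isPQ (kndE e) = true → isPQ (kndE e') = true →
      (v.length = 3 ∧ kndE e = kndE e' ∧ ∀ (p : PP A B g) (m m' : Dr) (k k' : G),
        e = eA m (p * Pι A B g k) → e' = eA m' (p * Pι A B g k') → IsABA A B (k⁻¹ * k')) ∨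
      5 ≤ v.length) ∧
    (isO (kndE e) = true → isO (kndE e') = true →
      (v.length = 2 → (kndE e = up ∧ kndE e' = vm) ∨ (kndE e = vm ∧ kndE e' = up)) ∧
      (∀ n, v = [e, n, e'] → (kndE e = up ∧ kndE n = vm ∧ kndE e' = up) ∨
        (kndE e = vm ∧ kndE n = up ∧ kndE e' = vm)))

/-- (H2) the hexagons of the O-O walks with one corner, in terms of `G` -/
def H2GStmt : Prop := ∀ (G : Type) [Group G] (A B : Subgroup G) (g : G) (hg : ¬ IsABA A B g)
  (hgeo : Geo A B) (hι : Function.Injective (Pι A B g)),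
  ∀ (p : PP A B g) (m m' : Dr) (k k' : G),
    (XX hg hgeo hι).Cor (eA m (p * Pι A B g k)) (eA m' (p * Pι A B g k')) → k⁻¹ * k' ∉ A →
    (m = .U ∧ m' = .V' ∧ ∃ a ∈ A, ∃ b ∈ A, k⁻¹ * k' = a * g * b) ∨
    (m = .V' ∧ m' = .U ∧ ∃ a ∈ A, ∃ b ∈ A, k⁻¹ * k' = a * g⁻¹ * b)

/-- (H2) two walks between the same pair of different hexagons: the sum of the corners is at least
four if one end of the second hexagon is an O-end and the other one a PQ-end (or the same in the first
hexagon); not `(U, V')` and `(V', U)`; not O-O = 1 and PQ-PQ = 2; not O-O = 1 and O-O = 2 -/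
def H2PairStmt : Prop := ∀ (G : Type) [Group G] (A B : Subgroup G) (g : G) (hg : ¬ IsABA A B g)
  (hgeo : Geo A B) (hι : Function.Injective (Pι A B g)), (∀ x ∈ A, ∀ y ∈ A, x * y = y * x) →
  ∀ (v v' : List (XE A B g)) (e e' f f' : XE A B g),
    Wk (XX hg hgeo hι) v e e' → Wk (XX hg hgeo hι) v' f f' → TFst v → TLst v → TFst v' → TLst v' →
    xsrc e = xsrc f → car e = car f → car e' = car f' → car e ≠ car e' →
    (kndE e).isH = true → (kndE e').isH = true →
    ((isO (kndE e') = true ∧ isPQ (kndE f') = true) ∨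
      (isPQ (kndE e') = true ∧ isO (kndE f') = true) ∨
      (isO (kndE e) = true ∧ isPQ (kndE f) = true) ∨
      (isPQ (kndE e) = true ∧ isO (kndE f) = true) → 6 ≤ v.length + v'.length) ∧
    (v.length = 2 → v'.length = 2 → e = f ∧ e' = f') ∧
    (v.length = 2 → v'.length = 3 → False)

/-- (TIP) `z` moves a letter to a letter of the same kind; never adjacent -/
def TipStmt : Prop := ∀ (G : Type) [Group G] (A B : Subgroup G) (g : G) (hg : ¬ IsABA A B g)
  (hgeo : Geo A B) (hι : Function.Injective (Pι A B g)),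
  (∀ (z : PP A B g) (e : XE A B g), ¬ (XX hg hgeo hι).Cor e (actE z e)) ∧
  (∀ (q : PP A B g) (a : G), a ∈ A → a ≠ 1 → ∀ e n : XE A B g, xsrc e = vx q → car e ≠ plane q →
    car n ≠ plane q → (XX hg hgeo hι).Cor e n →
    (XX hg hgeo hι).Cor n (actE (q * Pι A B g a * q⁻¹) e) →
    ow θR [e, n, actE (q * Pι A B g a * q⁻¹) e] = 2.1 ∧
    ((kndE e = um ∧ kndE n = cp) ∨ (kndE e = cp ∧ kndE n = um) ∨ (kndE e = vp ∧ kndE n = cm) ∨
      (kndE e = cm ∧ kndE n = vp)))

end Pool.Agent.ABA.B.H49
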