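import Pool.Agent.Helper49_ABB.Walk
import Pool.Agent.Helper52_ABB.HexLib

/-! # M0 (MP_d857f1_al, part B, E6): all tips of type A, all legs straight -/

set_option autoImplicit false

namespace Pool.Agent.ABA.B.H49

open Knd Pool.Agent.ABA Pool.Agent.ABA.B Pool.Agent.ABA.B.TG Pool.Agent.ABA.B.H17
  Pool.Agent.ABA.B.H89 Pool.Agent.ABA.B.H52

/-! ## triangles -/

section gen

variable {V E : Type} {S : TG V E}

theorem tri_rev {e e' e'' : E} (h : S.Tri e e' e'') :
    S.Tri (S.inv e) (S.inv e'') (S.inv e') := by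
  have h1 := S.tri_rot (S.tri_rot h)
  rw [S.inv_inv] at h1
  exact S.tri_swap h1

theorem tri_uniq' {e e' f f' : E} (h : S.Tri e f e') (h' : S.Tri e f' e') : f = f' := by
  have h1 := tri_rev h
  have h2 := tri_rev h'
  have h3 := S.tri_uniq h1 h2
  have h4 := congrArg S.inv h3
  rwa [S.inv_inv, S.inv_inv] at h4

theorem inv_inj {e f : E} (h : S.inv e = S.inv f) : e = f := by
  have h4 := congrArg S.inv h
  rwa [S.inv_inv, S.inv_inv] at h4

end gen

/-! ## sums -/

theorem sum_blocks (f : ℕ → ℝ) (k n : ℕ) :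
    ∑ t ∈ Finset.range (k * n), f t = ∑ i ∈ Finset.range k, ∑ j ∈ Finset.range n, f (i * n + j) := by
  induction k with
  | zero => simp
  | succ k ih =>
    rw [Nat.succ_mul, Finset.sum_range_add, ih, Finset.sum_range_succ]

theorem m0_sum (f : ℕ → ℝ) (n : ℕ) (hn : 1 ≤ n) (hper : ∀ t, f (t + 6 * n) = f t)
    (htip : ∀ i, 1 ≤ i → f (i * n) ≤ 0.9)
    (hpair : ∀ i j, 2 ≤ i → 1 ≤ j → j < n → f (i * n - j) + f (i * n + j) ≤ 0) :
    ∑ t ∈ Finset.range (6 * n), f t < 6 := by
  obtain ⟨m, rfl⟩ : ∃ m, n = m + 1 := ⟨n - 1, by omega⟩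
  set G : ℕ → ℝ := fun i => ∑ j ∈ Finset.range (m + 1), f (i * (m + 1) + j) with hG
  have hG6 : G 6 = G 0 := by
    simp only [hG]
    apply Finset.sum_congr rfl
    intro j _
    rw [show 6 * (m + 1) + j = (0 * (m + 1) + j) + 6 * (m + 1) by ring, hper]
  have key : ∀ i, 2 ≤ i → G (i - 1) + G i ≤ 1.8 := by
    intro i hi
    have e1 : G i = f (i * (m + 1)) + ∑ j ∈ Finset.range m, f (i * (m + 1) + (j + 1)) := by
      simp only [hG]
      rw [Finset.sum_range_succ', add_comm, add_zero]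
    have e2 : G (i - 1) = f ((i - 1) * (m + 1)) +
        ∑ j ∈ Finset.range m, f (i * (m + 1) - (j + 1)) := by
      simp only [hG]
      rw [Finset.sum_range_succ', add_comm, add_zero]
      congr 1
      rw [← Finset.sum_range_reflect]
      apply Finset.sum_congr rfl
      intro j hj
      rw [Finset.mem_range] at hj
      congr 1
      obtain ⟨i', rfl⟩ : ∃ i', i = i' + 1 := ⟨i - 1, by omega⟩
      rw [Nat.add_sub_cancel, Nat.succ_mul]
      omega
    have e3 : ∑ j ∈ Finset.range m, (f (i * (m + 1) - (j + 1)) + f (i * (m + 1) + (j + 1))) ≤ 0 := by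
      apply Finset.sum_nonpos
      intro j hj
      rw [Finset.mem_range] at hj
      exact hpair i (j + 1) hi (by omega) (by omega)
    rw [Finset.sum_add_distrib] at e3
    have h1 := htip i (by omega)
    have h2 := htip (i - 1) (by omega)
    rw [e1, e2]
    norm_num at h1 h2 ⊢
    linarith
  rw [sum_blocks]
  have hs : ∑ i ∈ Finset.range 6, ∑ j ∈ Finset.range (m + 1), f (i * (m + 1) + j) =
      G 0 + G 1 + G 2 + G 3 + G 4 + G 5 := by
    simp only [Finset.sum_range_succ _ 5, Finset.sum_range_succ _ 4, Finset.sum_range_succ _ 3,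
      Finset.sum_range_succ _ 2, Finset.sum_range_succ _ 1, Finset.sum_range_one, hG]
  rw [hs, ← hG6]
  have k2 := key 2 (by norm_num)
  have k4 := key 4 (by norm_num)
  have k6 := key 6 (by norm_num)
  norm_num at k2 k4 k6
  linarith

section

variable {G : Type} [Group G] {A B : Subgroup G} {g : G}
variable {hg : ¬ IsABA A B g} {hgeo : Geo A B} {hι : Function.Injective (Pι A B g)}

theorem ow_act (p : PP A B g) (v : List (XE A B g)) : ow θR (v.map (actE p)) = ow θR v := by
  have key : ∀ a b : XE A B g, θR (actE p a) (actE p b) = θR a b := by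
    intro a b
    unfold θR
    rw [kndE_act, kndE_act]
  induction v with
  | nil => rfl
  | cons a v ih =>
    cases v with
    | nil => rfl
    | cons b v =>
      simp only [List.map_cons, ow, key]
      rw [← ih]
      simp only [List.map_cons]

theorem act_inv_act (p : PP A B g) (e : XE A B g) : actE p (actE p⁻¹ e) = e := by
  rw [← smul_actE, ← smul_actE, smul_inv_smul]

theorem inv_act_act (p : PP A B g) (e : XE A B g) : actE p⁻¹ (actE p e) = e := by
  rw [← smul_actE, ← smul_actE, inv_smul_smul]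

/-- two walks with three corners each between the same letters, which leave the first letter
differently: they form a reduced closed walk -/
theorem two_walks (hA : ∀ x ∈ A, ∀ y ∈ A, x * y = y * x) {x y p q p' q' : XE A B g}
    (h1 : [x, p, q, y].IsChain (XX hg hgeo hι).Cor) (h2 : [y, p', q', x].IsChain (XX hg hgeo hι).Cor)
    (r1 : Red [x, p, q, y]) (r2 : Red [y, p', q', x]) (hne : q ≠ p') :
    p ≠ q' ∧ (6 : ℝ) ≤ ow θR [x, p, q, y] + ow θR [y, p', q', x] := by
  have hsys : ∀ v, CRW (XX hg hgeo hι) v → 6 ≤ v.length := fun v hv => hsysX hA v hv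
  simp only [List.isChain_cons_cons, List.isChain_singleton, and_true] at h1 h2
  obtain ⟨c1, c2, c3⟩ := h1
  obtain ⟨d1, d2, d3⟩ := h2
  have hpy : p ≠ y := by
    have := (red_iff _).1 r1 1 (by simp)
    simpa using this
  have hxq : x ≠ q := by
    have := (red_iff _).1 r1 0 (by simp)
    simpa using this
  have hyq' : y ≠ q' := by
    have := (red_iff _).1 r2 0 (by simp)
    simpa using this
  have hp'x : p' ≠ x := by
    have := (red_iff _).1 r2 1 (by simp)
    simpa using this
  have hpq' : p ≠ q' := by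
    rintro rfl
    rcases four hsys c2 c3 d1 d2 with h | h
    · exact hpy h
    · exact hne h
  refine ⟨hpq', ?_⟩
  have hv := (link_X' hg hgeo hι hA [x, p, q, y, p', q'] (by simp)
    (by simp [c1, c2, c3, d1, d2, d3]) (by
      apply (red_iff _).2
      intro i hi
      have hi' : i = 0 ∨ i = 1 ∨ i = 2 ∨ i = 3 ∨ i = 4 ∨ i = 5 := by simp at hi; omega
      rcases hi' with rfl | rfl | rfl | rfl | rfl | rfl
      · simpa using hxq
      · simpa using hpy
      · simpa using hne
      · simpa using hyq'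
      · simpa using hp'x
      · simpa using hpq'.symm)).2
  have e : cw θR [x, p, q, y, p', q'] = ow θR [x, p, q, y] + ow θR [y, p', q', x] := by
    simp only [cw, ow, List.take, List.cons_append, List.nil_append]
    ring
  rw [← e]
  rcases hv with h | ⟨-, h, -⟩
  · norm_num at h ⊢
    linarith
  · rw [h]

/-- the last but one letter -/
def pen {E : Type} (v : List E) : Option E := v.dropLast.getLast?

theorem pen_app {E : Type} (l : List E) (a b : E) : pen (l ++ [a, b]) = some a := by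
  unfold pen
  rw [show l ++ [a, b] = (l ++ [a]) ++ [b] by simp, List.dropLast_concat]
  simp

variable {c : ℕ → Car A B g} {ρ : ℕ → PP A B g} {n : ℕ} {C : Cfg (XV A B g) (XE A B g)}
  {W : ℕ → List (XE A B g)}

theorem o_mul (h : Ok hg hgeo hι c n C) (hs : ∀ i, C.s i = []) (i : ℕ) : C.o i = i * n := by
  induction i with
  | zero => simp [Cfg.o]
  | succ i ih =>
    rw [h.o_succ, Cfg.m, ih, hs, List.length_nil, Nat.succ_mul, add_zero]

theorem m_mul (h : Ok hg hgeo hι c n C) (hs : ∀ i, C.s i = []) (i : ℕ) : C.m i = i * n := by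
  rw [Cfg.m, o_mul h hs, hs, List.length_nil, add_zero]

/-- the data of the triangle behind the letter `t` -/
theorem edgW (hW : Whl hg hgeo hι c C W) (t : ℕ) : ∃ f1 f2, (XX hg hgeo hι).Tri (C.lt t) f1 f2 ∧
    pen (W t) = some f1 ∧ (W t).getLast? = some (C.lt t) ∧
    (W (t + 1)).head? = some (xinv (C.lt t)) ∧ (W (t + 1))[1]? = some (xinv f2) := by
  obtain ⟨f1, f2, l, r, h1, h2, h3, -⟩ := (hW.pc (t + 1)).edg t (Nat.zero_le _) (Nat.lt_succ_self _)
  refine ⟨f1, f2, h1, ?_, ?_, ?_, ?_⟩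
  · rw [h2, pen_app]
  · rw [h2]; simp
  · rw [h3]; rfl
  · rw [h3]; rfl

theorem len4 (h : Ok hg hgeo hι c n C) (hs : ∀ i, C.s i = [])
    (hW : Whl hg hgeo hι c C W)
    (hcs : ∀ t, cs C W (t + 1) = 0) {i j : ℕ} (hi : 1 ≤ i) (hj : 1 ≤ j) (hjn : j < n) :
    (W (i * n + j)).length = 4 := by
  obtain ⟨i, rfl⟩ : ∃ i', i = i' + 1 := ⟨i - 1, by omega⟩
  have h1 := hcs i
  unfold cs at h1
  have hle : ∀ t ∈ Finset.Ioo (C.m (i + 1)) (C.o (i + 1 + 1)), val (W t) ≤ 0 := by
    intro t ht
    rw [Finset.mem_Ioo] at ht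
    have := (hW.pc (t + 1)).leg (i + 1) t ht.1 ht.2 (by omega) (by omega)
    unfold val
    omega
  have h2 := (Finset.sum_eq_zero_iff_of_nonpos hle).1 h1 ((i + 1) * n + j) (by
    rw [Finset.mem_Ioo, m_mul h hs, o_mul h hs, Nat.succ_mul (i + 1) n]
    omega)
  unfold val at h2
  omega

/-- the walk at a straight vertex of a leg -/
theorem shape (hW : Whl hg hgeo hι c C W) {t : ℕ} (hl : (W (t + 1)).length = 4) :
    ∃ p q, W (t + 1) = [xinv (C.lt t), p, q, C.lt (t + 1)] := by
  obtain ⟨-, -, -, -, -, h1, -⟩ := edgW hW t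
  obtain ⟨-, -, -, -, h2, -, -⟩ := edgW hW (t + 1)
  match hv : W (t + 1), hl with
  | [x, p, q, y], _ =>
    rw [hv] at h1 h2
    simp only [List.head?_cons, Option.some.injEq] at h1
    simp at h2
    rw [h1, h2]
    exact ⟨p, q, rfl⟩

theorem tcp_iff {t : ℕ} : tcp hg hgeo hι c C t ↔
    ∃ μ, car μ = c t ∧ (XX hg hgeo hι).Cor (C.lt (C.m t)) μ := Iff.rfl

/-- the legs before and after a tip are mirror images -/
theorem mirror (hA : ∀ x ∈ A, ∀ y ∈ A, x * y = y * x) (hStrip : StripStmt hg hgeo hι)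
    (hc : Chn hg hgeo hι c ρ n) (h : Ok hg hgeo hι c n C) (hs : ∀ i, C.s i = [])
    (hW : Whl hg hgeo hι c C W) (hcs : ∀ t, cs C W (t + 1) = 0)
    (hT : ∀ t, ATip c ρ C W (t + 1)) (hp : ∀ t, ¬ tcp hg hgeo hι c C (t + 1)) {i : ℕ}
    (hi : 2 ≤ i) (j : ℕ) (hj : j < n) :
    C.lt (i * n + j) = actE (ρ i) (xinv (C.lt (i * n - j - 1))) := by
  have hsys : ∀ v, CRW (XX hg hgeo hι) v → 6 ≤ v.length := fun v hv => hsysX hA v hv
  obtain ⟨k, rfl⟩ : ∃ k, i = k + 2 := ⟨i - 2, by omega⟩
  have hn := hc.ps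
  induction j with
  | zero =>
    have h1 := (hT (k + 1)).2.2.1
    rw [eP, eM, m_mul h hs, o_mul h hs] at h1
    exact h1
  | succ j ih =>
    have ih := ih (by omega)
    obtain ⟨d, hd⟩ : ∃ d, n = j + 2 + d := ⟨n - (j + 2), by omega⟩
    -- positions
    have e0 : (k + 2) * n = (k + 1) * n + n := by ring
    obtain ⟨a0, ha0⟩ : ∃ a0, a0 = (k + 1) * n := ⟨_, rfl⟩
    have eu : (k + 2) * n - j - 1 = a0 + (d + 1) := by omega
    have eu' : (k + 2) * n - (j + 1) - 1 = a0 + d := by omega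
    rw [eu] at ih
    rw [eu']
    by_contra hcon
    set ρ' := ρ (k + 2) with hρ'
    set e' := actE ρ'⁻¹ (C.lt ((k + 2) * n + (j + 1))) with he'
    have hne : e' ≠ xinv (C.lt (a0 + d)) := by
      intro hh
      apply hcon
      rw [← hh, he', act_inv_act]
    have ga := gactX (hg := hg) (hgeo := hgeo) (hι := hι)
    have s1 : xsrc (C.lt ((k + 2) * n + (j + 1))) = ρ' • xsrc (C.lt (a0 + (d + 1))) := by
      have h2 := h.path hn ((k + 2) * n + j)
      rw [show (k + 2) * n + j + 1 = (k + 2) * n + (j + 1) by ring, ih] at h2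
      rw [h2]
      have h3 : xinv (actE ρ' (xinv (C.lt (a0 + (d + 1))))) =
          actE ρ' (xinv (xinv (C.lt (a0 + (d + 1))))) := ga.inv ρ' _
      rw [h3, show xinv (xinv (C.lt (a0 + (d + 1)))) = C.lt (a0 + (d + 1)) from
        (XX hg hgeo hι).inv_inv _]
      exact ga.src ρ' _
    have s2 : xsrc e' = xsrc (C.lt (a0 + (d + 1))) := by
      have h3 : xsrc e' = ρ'⁻¹ • xsrc (C.lt ((k + 2) * n + (j + 1))) := ga.src ρ'⁻¹ _
      rw [h3, s1, inv_smul_smul]
    have s3 : xsrc (xinv e') = ρ'⁻¹ • xsrc (C.lt ((k + 2) * n + (j + 1) + 1)) := by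
      have h3 : xinv e' = actE ρ'⁻¹ (xinv (C.lt ((k + 2) * n + (j + 1)))) := ga.inv ρ'⁻¹ _
      rw [h3]
      have h4 : xsrc (actE ρ'⁻¹ (xinv (C.lt ((k + 2) * n + (j + 1))))) =
        ρ'⁻¹ • xsrc (xinv (C.lt ((k + 2) * n + (j + 1)))) := ga.src ρ'⁻¹ _
      rw [h4, h.path hn]
    have hnx : ρ (k + 2) • c (k + 1) = c (k + 2 + 1) := hc.nx (k + 1)
    have eo : C.o (k + 2 + 1) = (k + 2) * n + n := by rw [o_mul h hs]; ring
    have eo1 : C.o (k + 1 + 1) = (k + 2) * n := o_mul h hs (k + 2)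
    have d1 := (leg_dist hc h (i := k + 1) (t := a0 + (d + 1)) (by rw [m_mul h hs]; omega)
      (by rw [eo1]; omega)).2
    have d2 := (leg_dist hc h (i := k + 2) (t := (k + 2) * n + (j + 1) + 1)
      (by rw [m_mul h hs]; omega) (by rw [eo]; omega)).1
    have d3 : dVC hg hgeo hι (xsrc (xinv e')) (c (k + 1)) = d := by
      rw [s3, ← dVC_smul ρ', smul_inv_smul, hρ', hnx, d2, eo]
      omega
    rw [m_mul h hs] at d1
    have d1' : dVC hg hgeo hι (xsrc (C.lt (a0 + (d + 1)))) (c (k + 1)) = d + 1 := by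
      rw [d1]; omega
    have hstr := hStrip (c (k + 1)) (xsrc (C.lt (a0 + (d + 1)))) (xsrc (C.lt a0))
      ((XX hg hgeo hι).rv (C.sg a0 (d + 1))) e' (hc.pl _) (h.sgP hn a0 (d + 1)).rv
      (by
        have h5 := h.src_m hn (k + 1)
        rw [m_mul h hs, ← ha0] at h5
        rw [h5]
        exact h.op _)
      (by rw [rv_length, Cfg.sg_length, d1'])
      (by
        intro l a b r hlr m hm1 hm2
        have h6 : C.sg a0 (d + 1) = (XX hg hgeo hι).rv r ++ xinv b :: xinv a ::
            (XX hg hgeo hι).rv l := by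
          have := congrArg (XX hg hgeo hι).rv hlr
          rw [rv_rv] at this
          rw [this]
          simp only [rv_append, rv_cons, List.append_assoc, List.cons_append, List.nil_append]
          rfl
        have hlen := congrArg List.length h6
        simp only [Cfg.sg_length, List.length_append, List.length_cons] at hlen
        obtain ⟨u, hu⟩ : ∃ u, u = ((XX hg hgeo hι).rv r).length := ⟨_, rfl⟩
        rw [← hu] at hlen
        have g1 := C.sg_get? (a := a0) (k := d + 1) (j := u) (by omega)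
        have g2 := C.sg_get? (a := a0) (k := d + 1) (j := u + 1) (by omega)
        rw [h6, List.getElem?_append_right (by omega), ← hu, Nat.sub_self,
          List.getElem?_cons_zero, Option.some.injEq] at g1
        rw [h6, List.getElem?_append_right (by omega), ← hu, Nat.add_sub_cancel_left,
          List.getElem?_cons_succ, List.getElem?_cons_zero, Option.some.injEq] at g2
        have hl4 := len4 h hs hW hcs (i := k + 1) (j := u + 1) (by omega) (by omega) (by omega)
        rw [← ha0] at hl4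
        obtain ⟨p, q, hpq⟩ := shape hW (t := a0 + u) hl4
        have hch := (hW.pc (a0 + u + 1)).chain (a0 + u + 1) (by omega) le_rfl
        rw [hpq] at hch
        simp only [List.isChain_cons_cons, List.isChain_singleton, and_true] at hch
        rw [← g1, show a0 + u + 1 = a0 + (u + 1) by ring, ← g2,
          show xinv (xinv b) = b from (XX hg hgeo hι).inv_inv _] at hch
        exact no5 hsys hch.1 hch.2.1 hch.2.2 hm1 hm2)
      ⟨s2, by rw [d3, d1']⟩
      (by
        rw [Cfg.sg_last, rv_append, rv_cons]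
        simp only [rv_nil, List.nil_append, List.cons_append, List.head?_cons, ne_eq,
          Option.some.injEq]
        exact fun hh => hne hh.symm)
      (by
        intro hh
        have := congrArg List.length hh
        simp at this)
    obtain ⟨a, μ, hm1, hm2, hm3⟩ := hstr
    rw [Cfg.sg_succ, rv_cons] at hm1
    simp only [List.getLast?_concat, Option.some.injEq] at hm1
    rw [← hm1] at hm3
    refine hp k ⟨μ, hm2, ?_⟩
    rw [eP, m_mul h hs, ← ha0]
    rw [show xinv ((XX hg hgeo hι).inv (C.lt a0)) = C.lt a0 from (XX hg hgeo hι).inv_inv _] at hm3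
    exact hm3

/-- the refined weights at mirror images -/
theorem pairs (hA : ∀ x ∈ A, ∀ y ∈ A, x * y = y * x) (hS : StabStmt A B g)
    (hStrip : StripStmt hg hgeo hι)
    (hc : Chn hg hgeo hι c ρ n) (h : Ok hg hgeo hι c n C) (hs : ∀ i, C.s i = [])
    (hW : Whl hg hgeo hι c C W) (hcs : ∀ t, cs C W (t + 1) = 0)
    (hT : ∀ t, ATip c ρ C W (t + 1)) (hp : ∀ t, ¬ tcp hg hgeo hι c C (t + 1)) {i : ℕ}
    (hi : 2 ≤ i) (j : ℕ) (hj : j < n) :
    (∀ p q', (W (i * n - j))[1]? = some p → pen (W (i * n + j)) = some (actE (ρ i) q') → p ≠ q') ∧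
    (1 ≤ j → (6 : ℝ) ≤ ow θR (W (i * n - j)) + ow θR (W (i * n + j))) := by
  obtain ⟨k, rfl⟩ : ∃ k, i = k + 2 := ⟨i - 2, by omega⟩
  have hn := hc.ps
  have ga := gactX (hg := hg) (hgeo := hgeo) (hι := hι)
  have e0 : (k + 2) * n = (k + 1) * n + n := by ring
  induction j with
  | zero =>
    refine ⟨?_, fun h0 => absurd h0 (by norm_num)⟩
    intro p q' h1 h2 hpq
    obtain ⟨f, hf, hf2, -⟩ := (hT (k + 1)).2.2.2
    rw [o_mul h hs] at hf
    rw [Nat.sub_zero] at h1
    rw [add_zero] at h2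
    have hf' : W ((k + 2) * n) = [eM C (k + 2), f, eP C (k + 2)] := hf
    rw [hf'] at h1 h2
    rw [show [eM C (k + 2), f, eP C (k + 2)] = [eM C (k + 2)] ++ [f, eP C (k + 2)] from rfl,
      pen_app] at h2
    simp only [List.getElem?_cons_succ, List.getElem?_cons_zero, Option.some.injEq] at h1 h2
    subst hpq
    have hfix : actE (ρ (k + 2)) f = f := by rw [h1, ← h2, h1]
    have hcar : ρ (k + 2) • car f = car f := by rw [← car_act, hfix]
    exact hf2 (hS _ _ _ (hc.n1 (k + 2)) (hc.st (k + 2)) hcar).symm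
  | succ j ih =>
    obtain ⟨ih, -⟩ := ih (by omega)
    obtain ⟨d, hd⟩ : ∃ d, n = j + 2 + d := ⟨n - (j + 2), by omega⟩
    obtain ⟨a0, ha0⟩ : ∃ a0, a0 = (k + 1) * n := ⟨_, rfl⟩
    obtain ⟨b0, hb0⟩ : ∃ b0, b0 = (k + 2) * n := ⟨_, rfl⟩
    have eu : (k + 2) * n - j = a0 + (d + 1) + 1 := by omega
    have eu' : (k + 2) * n - (j + 1) = a0 + d + 1 := by omega
    rw [eu, ← hb0] at ih
    rw [eu', ← hb0]
    have m1 := mirror hA hStrip hc h hs hW hcs hT hp hi j (by omega)
    have m2 := mirror hA hStrip hc h hs hW hcs hT hp hi (j + 1) hj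
    rw [show (k + 2) * n - j - 1 = a0 + d + 1 by omega, ← hb0] at m1
    rw [show (k + 2) * n - (j + 1) - 1 = a0 + d by omega, ← hb0] at m2
    have l1 := len4 h hs hW hcs (i := k + 1) (j := d + 1) (by omega) (by omega) (by omega)
    have l2 := len4 h hs hW hcs (i := k + 2) (j := j + 1) (by omega) (by omega) (by omega)
    rw [← ha0] at l1
    rw [← hb0] at l2
    obtain ⟨P, q, hu⟩ := shape hW (t := a0 + d) l1
    obtain ⟨r, Q, hv⟩ := shape hW (t := b0 + j) l2
    obtain ⟨f1, f2, t1, t2, -, -, t5⟩ := edgW hW (a0 + d + 1)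
    obtain ⟨g1, g2, w1, w2, -, -, w5⟩ := edgW hW (b0 + j)
    rw [hu, show [xinv (C.lt (a0 + d)), P, q, C.lt (a0 + d + 1)] =
      [xinv (C.lt (a0 + d)), P] ++ [q, C.lt (a0 + d + 1)] from rfl, pen_app,
      Option.some.injEq] at t2
    rw [hv] at w5
    simp only [List.getElem?_cons_succ, List.getElem?_cons_zero, Option.some.injEq] at w5
    subst t2
    -- the walk after the tip, transported back
    set σ := ρ (k + 2) with hσ
    have hne0 : xinv f2 ≠ actE σ⁻¹ g1 := by
      refine ih _ _ ?_ ?_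
      · rw [← t5]; congr 2
      · rw [w2, act_inv_act]
    have e1 : actE σ⁻¹ (xinv (C.lt (b0 + j))) = C.lt (a0 + d + 1) := by
      rw [m1]
      have h3 : xinv (actE σ (xinv (C.lt (a0 + d + 1)))) =
          actE σ (xinv (xinv (C.lt (a0 + d + 1)))) := ga.inv σ _
      rw [h3, inv_act_act]
      exact (XX hg hgeo hι).inv_inv _
    have e2 : actE σ⁻¹ (C.lt (b0 + j + 1)) = xinv (C.lt (a0 + d)) := by
      rw [show b0 + j + 1 = b0 + (j + 1) by ring, m2, inv_act_act]
    have c1 := (hW.pc (a0 + d + 1)).chain (a0 + d + 1) (by omega) le_rfl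
    have r1 := (hW.pc (a0 + d + 1)).red (a0 + d + 1) (by omega) le_rfl
    have c2 := (hW.pc (b0 + j + 1)).chain (b0 + j + 1) (by omega) le_rfl
    have r2 := (hW.pc (b0 + j + 1)).red (b0 + j + 1) (by omega) le_rfl
    have c2' : [C.lt (a0 + d + 1), actE σ⁻¹ r, actE σ⁻¹ Q, xinv (C.lt (a0 + d))].IsChain
        (XX hg hgeo hι).Cor := by
      rw [hv] at c2
      simp only [List.isChain_cons_cons, List.isChain_singleton, and_true] at c2 ⊢
      rw [← e1, ← e2]
      exact ⟨ga.cor σ⁻¹ c2.1, ga.cor σ⁻¹ c2.2.1, ga.cor σ⁻¹ c2.2.2⟩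
    have hmap : (W (b0 + j + 1)).map (actE σ⁻¹) =
        [C.lt (a0 + d + 1), actE σ⁻¹ r, actE σ⁻¹ Q, xinv (C.lt (a0 + d))] := by
      rw [hv]
      simp only [List.map_cons, List.map_nil]
      rw [e1, e2]
    have r2' : Red [C.lt (a0 + d + 1), actE σ⁻¹ r, actE σ⁻¹ Q, xinv (C.lt (a0 + d))] := by
      rw [← hmap]
      apply red_map _ r2
      intro x y hxy
      have := congrArg (actE σ) hxy
      rwa [act_inv_act, act_inv_act] at this
    rw [hu] at c1 r1
    have hne : q ≠ actE σ⁻¹ r := by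
      intro hh
      apply hne0
      have k1 := tri_rev t1
      have k2 := ga.tri σ⁻¹ w1
      have k3 : σ⁻¹ • C.lt (b0 + j) = (XX hg hgeo hι).inv (C.lt (a0 + d + 1)) := by
        rw [smul_actE, m1, inv_act_act]; rfl
      have k4 : σ⁻¹ • g2 = (XX hg hgeo hι).inv q := by
        rw [hh, w5]
        have h3 : xinv (actE σ⁻¹ (xinv g2)) = actE σ⁻¹ (xinv (xinv g2)) := ga.inv σ⁻¹ _
        have h4 : (XX hg hgeo hι).inv (actE σ⁻¹ (xinv g2)) = xinv (actE σ⁻¹ (xinv g2)) := rfl
        rw [h4, h3, show xinv (xinv g2) = g2 from (XX hg hgeo hι).inv_inv _]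
        rfl
      rw [k3, k4] at k2
      exact tri_uniq' k1 k2
    obtain ⟨n1, n2⟩ := two_walks hA c1 c2' r1 r2' hne
    refine ⟨?_, fun _ => ?_⟩
    · intro p q' h1 h2
      rw [hu] at h1
      rw [show b0 + (j + 1) = b0 + j + 1 by ring, hv,
        show [xinv (C.lt (b0 + j)), r, Q, C.lt (b0 + j + 1)] =
        [xinv (C.lt (b0 + j)), r] ++ [Q, C.lt (b0 + j + 1)] from rfl, pen_app,
        Option.some.injEq] at h2
      simp only [List.getElem?_cons_succ, List.getElem?_cons_zero, Option.some.injEq] at h1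
      rw [← h1]
      rw [h2, inv_act_act] at n1
      exact n1
    · rw [← hmap, ow_act, ← hu] at n2
      exact n2

/-- M0 -/
theorem m0 (hA : ∀ x ∈ A, ∀ y ∈ A, x * y = y * x) (hS : StabStmt A B g)
    (hStrip : StripStmt hg hgeo hι) : M0Stmt hg hgeo hι := by
  intro c ρ n C W hc h _ hW hT hcs _ hp
  have hs : ∀ i, C.s i = [] := by
    intro i
    cases i with
    | zero =>
      rw [← h.ps 0]
      exact (hT 5).1
    | succ i => exact (hT i).1
  have hn := hc.ps
  have h1 := hW.totR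
  rw [o_mul h hs] at h1
  have h2 := m0_sum (fun t => 3 - ow θR (W t)) n hn (by
      intro t
      have := hW.per t
      rw [o_mul h hs] at this
      simp only [this])
    (by
      intro i hi
      obtain ⟨i, rfl⟩ : ∃ i', i = i' + 1 := ⟨i - 1, by omega⟩
      obtain ⟨f, -, -, hf⟩ := (hT i).2.2.2
      rw [o_mul h hs] at hf
      simp only [hf]
      norm_num)
    (by
      intro i j hi hj hjn
      have := (pairs hA hS hStrip hc h hs hW hcs hT hp hi j hjn).2 hj
      linarith)
  linarith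

end

end Pool.Agent.ABA.B.H49
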