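import Pool.Agent.Helper49_ABB.Walk
import Pool.Agent.Helper52_ABB.HexLib

/-! # FLAT (MP_d857f1_al, part B, E6): the vertices of nonempty sides -/

set_option autoImplicit false

namespace Pool.Agent.ABA.B.H49

open Knd Pool.Agent.ABA Pool.Agent.ABA.B Pool.Agent.ABA.B.TG Pool.Agent.ABA.B.H17
  Pool.Agent.ABA.B.H89 Pool.Agent.ABA.B.H52

section

variable {G : Type} [Group G] {A B : Subgroup G} {g : G}
variable {hg : ¬ IsABA A B g} {hgeo : Geo A B} {hι : Function.Injective (Pι A B g)}

theorem isH_of_plane {e : XE A B g} {c : Car A B g} (hc : IsPl c) (he : car e = c) :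
    (kndE e).isH = true := by
  obtain ⟨q, rfl⟩ := hc
  by_contra h
  obtain ⟨s, r, rfl⟩ := isC_form (e := e) (by simpa using h)
  exact plane_ne_line he.symm

/-- a walk from a letter `x` of the plane which starts T-like and ends with `y` outside of the plane,
coming from outside of the plane -/
theorem foot_val (hA : ∀ x ∈ A, ∀ y ∈ A, x * y = y * x) {c : Car A B g} (hc : IsPl c)
    {v : List (XE A B g)} {x y f1 f2 : XE A B g} {l r : List (XE A B g)}
    (hch : v.IsChain (XX hg hgeo hι).Cor) (hr : Red v)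
    (h1 : v = x :: f2 :: r) (h2 : v = l ++ [f1, y]) (hx : car x = c) (hy : car y ≠ c)
    (hf2 : car f2 ≠ c) (hf1 : car f1 ≠ c) :
    3 ≤ v.length ∧ ((∃ μ, car μ = c ∧ (XX hg hgeo hι).Cor y μ) → 5 ≤ v.length) := by
  have hsys : ∀ v, CRW (XX hg hgeo hι) v → 6 ≤ v.length := fun v hv => hsysX hA v hv
  have hH : (kndE x).isH = true := isH_of_plane hc hx
  have hlen3 : 3 ≤ v.length := by
    have : v.length = r.length + 2 := by rw [h1]; simp
    rcases r with _ | ⟨z, r⟩
    · exfalso
      obtain ⟨-, h4, -⟩ := append_two h2 h1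
      rw [h4] at hf1
      exact hf1 hx
    · simp at this; omega
  refine ⟨hlen3, ?_⟩
  rintro ⟨μ, hμ, hcor⟩
  by_cases hxμ : x = μ
  · subst hxμ
    -- closed walk
    by_contra hlt
    have hl : v.length = 3 ∨ v.length = 4 := by omega
    rcases hl with hl | hl
    · match v, hl with
      | [a, b, d], _ =>
        simp only [List.cons.injEq] at h1
        obtain ⟨rfl, rfl, rfl⟩ := h1
        have h5 := congrArg List.getLast? h2
        simp at h5
        subst h5
        simp only [List.isChain_cons_cons, List.isChain_singleton, and_true] at hch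
        exact no3 hsys hch.1 hch.2 hcor
    · match v, hl with
      | [a, b, d, d'], _ =>
        simp only [List.cons.injEq] at h1
        obtain ⟨rfl, rfl, rfl⟩ := h1
        have h5 := congrArg List.getLast? h2
        simp at h5
        subst h5
        simp only [List.isChain_cons_cons, List.isChain_singleton, and_true] at hch
        rcases four hsys hch.1 hch.2.1 hch.2.2 hcor with h | h
        · have := (red_iff _).1 hr 0 (by simp)
          simp at this
          exact this h
        · have := (red_iff _).1 hr 1 (by simp)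
          simp at this
          exact this h
  · have hw : Wk (XX hg hgeo hι) (v ++ [μ]) x μ := by
      refine ⟨?_, ?_, by simp⟩
      · rw [List.isChain_append]
        refine ⟨hch, by simp, ?_⟩
        intro a ha b hb
        rw [h2] at ha
        simp at ha hb
        subst ha; subst hb
        exact hcor
      · rw [h1]; rfl
    have h3 := (tw_ G A B g hg hgeo hι hA (v ++ [μ]) x μ hw
      ⟨x, f2, r ++ [μ], by rw [h1]; rfl, by rw [hx]; exact hf2⟩
      ⟨l ++ [f1], y, μ, by rw [h2]; simp, by rw [hμ]; exact hy⟩ hH (by rw [hx, hμ]) hxμ).1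
    rw [List.length_append] at h3
    simp at h3
    omega

/-- FLAT -/
theorem flat_ (hA : ∀ x ∈ A, ∀ y ∈ A, x * y = y * x) : FlatStmt hg hgeo hι := by
  intro c ρ n C b e W hc h hNb hP
  have hn := hc.ps
  refine ⟨?_, ?_, ?_⟩
  · intro i t h1 h2 h3 h4
    obtain ⟨t, rfl⟩ : ∃ t', t = t' + 1 := ⟨t - 1, by omega⟩
    obtain ⟨f1, f2, l, r, T1, e1, -, k1, -, -⟩ := hP.edg (t + 1) (by omega) h4
    obtain ⟨g1, g2, l', r', T2, -, e2, k2, -, -⟩ := hP.edg t (by omega) (by omega)
    have hk1 := (k1 i (by omega) h2).1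
    have hk2 := (k2 i (by omega) (by omega)).2
    have hc1 := h.car_side hn (i := i) (t := t + 1) (by omega) h2
    have hc0 := h.car_side hn (i := i) (t := t) (by omega) (by omega)
    have hci : car (xinv (C.lt t)) = c i := by rw [car_inv]; exact hc0
    have hw : Wk (XX hg hgeo hι) (W (t + 1)) (xinv (C.lt t)) (C.lt (t + 1)) :=
      ⟨hP.chain _ (by omega) (by omega), by rw [e2]; rfl, by rw [e1]; simp⟩
    have h5 := (tw_ G A B g hg hgeo hι hA _ _ _ hw
      ⟨_, _, _, e2, by rw [car_inv, hci]; exact hk2⟩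
      ⟨_, _, _, e1, by rw [hc1]; exact hk1⟩ (isH_of_plane (hc.pl i) hci) (by rw [hci, hc1])
      (hNb i t (by omega) h2).symm).1
    unfold val
    omega
  · intro t h1 h2 h3
    obtain ⟨m, hm⟩ : ∃ m, C.m t = m + 1 := ⟨C.m t - 1, by omega⟩
    rw [hm] at h1 h2 h3 ⊢
    obtain ⟨f1, f2, l, r, T1, e1, -, -, k1, -⟩ := hP.edg (m + 1) (by omega) h3
    obtain ⟨g1, g2, l', r', T2, -, e2, k2, -, -⟩ := hP.edg m (by omega) (by omega)
    have hk1 := k1 t hm
    have hk2 := (k2 t (by omega) (by omega)).2
    have hc0 := h.car_side hn (i := t) (t := m) (by omega) (by omega)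
    have hci : car (xinv (C.lt m)) = c t := by rw [car_inv]; exact hc0
    have hy : car (C.lt (m + 1)) ≠ c t := by
      rw [← hm]
      exact eP_car hc h t
    have h5 := foot_val hA (hc.pl t) (hP.chain _ (by omega) (by omega)) (hP.red _ (by omega) (by omega))
      e2 e1 hci hy (by rw [car_inv]; exact hk2) hk1
    refine ⟨by unfold val; omega, ?_⟩
    rintro ⟨μ, hm1, hm2⟩
    have h6 := h5.2 ⟨μ, hm1, by rw [← hm]; exact hm2⟩
    unfold val; omega
  · intro t h1 h2 h3
    have hlt := (h.pos hn).m_lt t
    obtain ⟨m, hm⟩ : ∃ m, C.o (t + 1) = m + 1 := ⟨C.o (t + 1) - 1, by omega⟩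
    rw [hm] at h1 h2 h3 ⊢
    obtain ⟨f1, f2, l, r, T1, e1, -, k1, -, -⟩ := hP.edg (m + 1) (by omega) h3
    obtain ⟨g1, g2, l', r', T2, -, e2, -, -, k2⟩ := hP.edg m (by omega) (by omega)
    have hk1 := (k1 (t + 1) (by omega) h1).1
    have hk2 := k2 t hm
    have hc0 := h.car_side hn (i := t + 1) (t := m + 1) (by omega) h1
    have hy : car (xinv (C.lt m)) ≠ c (t + 1) := by
      have := eM_car hc h t
      rw [eM, hm] at this
      exact this
    -- the reversed walk
    have hch : (W (m + 1)).reverse.IsChain (XX hg hgeo hι).Cor := by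
      rw [List.isChain_reverse]
      exact (hP.chain _ (by omega) (by omega)).imp (fun a b hab => cor_sym hab)
    have hrr : Red (W (m + 1)).reverse := by
      have h7 := hP.red (m + 1) (by omega) (by omega)
      intro l a b c r hlr
      refine (h7 r.reverse c b a l.reverse ?_).symm
      have := congrArg List.reverse hlr
      rw [List.reverse_reverse] at this
      rw [this]
      simp
    have h5 := foot_val hA (hc.pl (t + 1)) hch hrr
      (by rw [e1]; simp; rfl) (by rw [e2]; simp; rfl) hc0 hy hk1 (by rw [car_inv]; exact hk2)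
    rw [List.length_reverse] at h5
    refine ⟨by unfold val; omega, ?_⟩
    rintro ⟨μ, hm1, hm2⟩
    rw [eM, hm] at hm2
    have h6 := h5.2 ⟨μ, hm1, hm2⟩
    unfold val; omega

end

end Pool.Agent.ABA.B.H49
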