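import Pool.Agent.Helper14_ABB.Tip0a

/-! # TIP0, case (b): the tip is fixed (MP_d857f1_al, part B) -/

set_option autoImplicit false

namespace Pool.Agent.ABA.B.H49

open Knd Pool.Agent.ABA Pool.Agent.ABA.B Pool.Agent.ABA.B.TG Pool.Agent.ABA.B.H17
  Pool.Agent.ABA.B.H89 Pool.Agent.ABA.B.H52 Pool.Agent.ABA.B.H24 Pool.Agent.ABA.B.H14

variable {G : Type} [Group G] {A B : Subgroup G} {g : G}
variable {hg : ¬ IsABA A B g} {hgeo : Geo A B} {hι : Function.Injective (Pι A B g)}

/-- an element `≠ 1` which fixes a plane and a vertex of it -/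
theorem rot_form (hι : Function.Injective (Pι A B g)) {F : Car A B g} {z : PP A B g}
    {x : XV A B g} (hF : IsPl F) (hz : z • F = F) (hz1 : z ≠ 1) (hx : On F x) (hzx : z • x = x) :
    ∃ q a, a ∈ A ∧ a ≠ 1 ∧ x = vx q ∧ F = plane q ∧ z = q * Pι A B g a * q⁻¹ := by
  obtain ⟨q, rfl, h | h⟩ := hx
  · subst h
    rw [smul_vx] at hzx
    obtain ⟨k, hk⟩ := vx_eq.1 hzx.symm
    have hz2 : z = q * Pι A B g k * q⁻¹ := by rw [← hk]; group
    have h1 := stab_plane.1 hz
    have h2 : q⁻¹ * z * q = Pι A B g k := by rw [hz2]; group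
    rw [h2] at h1
    refine ⟨q, k, PA_ι hι h1, ?_, rfl, rfl, hz2⟩
    rintro rfl
    apply hz1
    rw [hz2, map_one]; group
  · obtain ⟨r, hr⟩ := hF
    rw [h] at hr
    exact absurd hr.symm plane_ne_line

/-- rotations fix the letters of their plane -/
theorem rot_fix (hι : Function.Injective (Pι A B g)) {q : PP A B g} {a : G} (ha : a ∈ A)
    {μ : XE A B g} (h1 : car μ = plane q) (h2 : xsrc μ = vx q) :
    actE (q * Pι A B g a * q⁻¹) μ = μ := by
  obtain ⟨m, r, rfl⟩ := isH_form (isH_pl ⟨q, rfl⟩ h1)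
  have h3 : vx r = (vx q : XV A B g) := h2
  obtain ⟨k, hk⟩ := vx_eq.1 h3.symm
  subst hk
  have h4 : (plane (q * Pι A B g k) : Car A B g) = plane q := h1
  have h5 := plane_eq.1 h4.symm
  rw [inv_mul_cancel_left] at h5
  have hk := PA_ι hι h5
  rw [actE_eA]
  have e1 : q * Pι A B g a * q⁻¹ * (q * Pι A B g k) = (q * Pι A B g k) * Pι A B g (k⁻¹ * a * k) := by
    rw [map_mul, map_mul, map_inv]; group
  rw [e1]
  symm
  rw [eA_eq]
  exact ⟨rfl, k⁻¹ * a * k, A.mul_mem (A.mul_mem (A.inv_mem hk) ha) hk, rfl⟩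

theorem tip0b_core (hA : ∀ x ∈ A, ∀ y ∈ A, x * y = y * x) (hSt : StabStmt A B g)
    {F : Car A B g} {z : PP A B g} {x : XV A B g} {e₁ e₂ f1 f2 : XE A B g}
    {w l r : List (XE A B g)}
    (hF : IsPl F) (hz : z • F = F) (hz1 : z ≠ 1) (hx : On F x) (hzx : z • x = x)
    (hs1 : xsrc e₁ = x) (hs2 : xsrc e₂ = x) (hc1 : car e₁ ≠ F) (hc2 : car e₂ ≠ F)
    (hch : w.IsChain (XX hg hgeo hι).Cor) (hr : Red w) (hw1 : w = e₁ :: f2 :: r)
    (hw2 : w = l ++ [f1, e₂]) (_hf1 : car f1 ≠ F) (hf2 : car f2 ≠ F) :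
    (e₂ = actE z e₁ → 3 ≤ w.length ∧
      (w.length = 3 → ∃ f, w = [e₁, f, e₂] ∧ car f ≠ F ∧ ow θR w = 2.1) ∧
      ((∃ μ, car μ = F ∧ (XX hg hgeo hι).Cor e₁ μ) ∨ (∃ μ, car μ = F ∧ (XX hg hgeo hι).Cor e₂ μ) →
        5 ≤ w.length)) ∧
    (∀ e', e₂ = actE z e' → (XX hg hgeo hι).Cor e₁ e' → 2 ≤ w.length ∧
      (w.length = 2 → w = [e₁, e₂] ∧ ((kndE e₁ = um ∧ kndE e' = cp) ∨ (kndE e₁ = cp ∧ kndE e' = um) ∨
        (kndE e₁ = vp ∧ kndE e' = cm) ∨ (kndE e₁ = cm ∧ kndE e' = vp))) ∧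
      ((∃ μ, car μ = F ∧ (XX hg hgeo hι).Cor e₁ μ) ∨ (∃ μ, car μ = F ∧ (XX hg hgeo hι).Cor e₂ μ) →
        4 ≤ w.length) ∧
      ((∃ μ, car μ = F ∧ (XX hg hgeo hι).Cor e₁ μ) → (∃ μ, car μ = F ∧ (XX hg hgeo hι).Cor e₂ μ) →
        False)) := by
  have hsys : ∀ v, CRW (XX hg hgeo hι) v → 6 ≤ v.length := fun v hv => hsysX hA v hv
  obtain ⟨q, a, ha, ha1, hxq, hFq, hzq⟩ := rot_form hι hF hz hz1 hx hzx
  have hsμ : ∀ {e μ : XE A B g}, xsrc e = x → (XX hg hgeo hι).Cor e μ → xsrc μ = vx q := by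
    intro e μ he hc
    rw [← hxq, ← he]
    exact (cor_src hg hgeo hι hc).symm
  have hfixμ : ∀ {μ : XE A B g}, car μ = F → xsrc μ = vx q → actE z μ = μ := by
    intro μ h1 h2
    rw [hzq]
    exact rot_fix hι ha (h1.trans hFq) h2
  have hfixμ' : ∀ {μ : XE A B g}, car μ = F → xsrc μ = vx q → actE z⁻¹ μ = μ := by
    intro μ h1 h2
    have := hfixμ h1 h2
    conv_lhs => rw [← this]
    exact act_back z μ
  have ga := gactX (hg := hg) (hgeo := hgeo) (hι := hι)
  have hca : ∀ {e f : XE A B g}, (XX hg hgeo hι).Cor e f →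
      (XX hg hgeo hι).Cor (actE z e) (actE z f) := fun h => ga.cor z h
  have hca' : ∀ {e f : XE A B g}, (XX hg hgeo hι).Cor e f →
      (XX hg hgeo hι).Cor (actE z⁻¹ e) (actE z⁻¹ f) := fun h => ga.cor z⁻¹ h
  have hne1 : ∀ {e : XE A B g}, car e ≠ F → actE z e ≠ e := by
    intro e he h
    have hcar : z • car e = car e := by rw [← car_act, h]
    exact he (hSt _ _ _ hz1 hz hcar).symm
  have hlen2 : 2 ≤ w.length := by rw [hw1]; simp
  have hlast : w.getLast? = some e₂ := by rw [hw2]; simp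
  have htip := (tip_ G A B g hg hgeo hι).2 q a ha ha1
  rw [← hzq] at htip
  refine ⟨?_, ?_⟩
  · intro he
    have hlen3 : 3 ≤ w.length := by
      by_contra hlt
      have hl : w.length = 2 := by omega
      match w, hl with
      | [b1, b2], _ =>
        simp only [List.cons.injEq] at hw1
        simp at hlast hch
        rw [hw1.1, hlast, he] at hch
        exact (tip_ G A B g hg hgeo hι).1 z e₁ hch
    refine ⟨hlen3, ?_, ?_⟩
    · intro hl
      match w, hl with
      | [b1, b2, b3], _ =>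
        simp only [List.cons.injEq] at hw1
        obtain ⟨rfl, rfl, rfl⟩ := hw1
        simp at hlast hch
        subst hlast
        refine ⟨b2, rfl, hf2, ?_⟩
        rw [he] at hch ⊢
        exact (htip b1 b2 (by rw [hs1, hxq]) (by rw [← hFq]; exact hc1) (by rw [← hFq]; exact hf2)
          hch.1 hch.2).1
    · intro hfl
      -- both letters are adjacent to `μ`
      obtain ⟨μ, hμ, k1, k2⟩ : ∃ μ, car μ = F ∧ (XX hg hgeo hι).Cor e₁ μ ∧
          (XX hg hgeo hι).Cor e₂ μ := by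
        rcases hfl with ⟨μ, hμ, hc⟩ | ⟨μ, hμ, hc⟩
        · refine ⟨μ, hμ, hc, ?_⟩
          have h1 := hca hc
          rw [hfixμ hμ (hsμ hs1 hc), ← he] at h1
          exact h1
        · refine ⟨μ, hμ, ?_, hc⟩
          have h1 := hca' hc
          rw [hfixμ' hμ (hsμ hs2 hc), he, act_back] at h1
          exact h1
      by_contra hlt
      have hl : w.length = 3 ∨ w.length = 4 := by omega
      rcases hl with hl | hl
      · match w, hl with
        | [b1, b2, b3], _ =>
          simp only [List.cons.injEq] at hw1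
          obtain ⟨rfl, rfl, rfl⟩ := hw1
          simp at hlast hch
          subst hlast
          rcases four hsys hch.1 hch.2 k2 (cor_sym k1) with h | h
          · exact hne1 hc1 (by rw [← he]; exact h.symm)
          · exact hf2 (by rw [h]; exact hμ)
      · match w, hl with
        | [b1, b2, b3, b4], _ =>
          simp only [List.cons.injEq] at hw1
          obtain ⟨rfl, rfl, rfl⟩ := hw1
          simp at hlast hch
          subst hlast
          exact no5 hsys hch.1 hch.2.1 hch.2.2 k2 (cor_sym k1)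
  · intro e' he hc
    have hce' : car e' ≠ F := by
      intro h
      apply hc2
      rw [he, car_act, h, hz]
    have hse' : xsrc e' = x := by rw [← hs1]; exact (cor_src hg hgeo hι hc).symm
    have hcz : (XX hg hgeo hι).Cor (actE z e₁) e₂ := by rw [he]; exact hca hc
    refine ⟨hlen2, ?_, ?_, ?_⟩
    · intro hl
      match w, hl with
      | [b1, b2], _ =>
        simp only [List.cons.injEq] at hw1
        obtain ⟨rfl, rfl, -⟩ := hw1
        simp at hlast hch
        subst hlast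
        refine ⟨rfl, ?_⟩
        have h1 := (htip e' b1 (by rw [hse', hxq]) (by rw [← hFq]; exact hce')
          (by rw [← hFq]; exact hc1) (cor_sym hc) (by rw [← he]; exact hch)).2
        rcases h1 with ⟨h1, h2⟩ | ⟨h1, h2⟩ | ⟨h1, h2⟩ | ⟨h1, h2⟩
        · exact Or.inr (Or.inl ⟨h2, h1⟩)
        · exact Or.inl ⟨h2, h1⟩
        · exact Or.inr (Or.inr (Or.inr ⟨h2, h1⟩))
        · exact Or.inr (Or.inr (Or.inl ⟨h2, h1⟩))
    · intro hfl
      by_contra hlt
      have hl : w.length = 2 ∨ w.length = 3 := by omega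
      rcases hfl with ⟨μ, hμ, hcμ⟩ | ⟨μ, hμ, hcμ⟩
      · -- closed walk `μ`, `w`, `z e₁`
        have h1 : (XX hg hgeo hι).Cor (actE z e₁) μ := by
          have h1 := hca hcμ
          rwa [hfixμ hμ (hsμ hs1 hcμ)] at h1
        rcases hl with hl | hl
        · match w, hl with
          | [b1, b2], _ =>
            simp only [List.cons.injEq] at hw1
            obtain ⟨rfl, rfl, -⟩ := hw1
            simp at hlast hch
            subst hlast
            rcases four hsys (cor_sym hcμ) hch (cor_sym hcz) h1 with h | h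
            · exact hc2 (by rw [← h]; exact hμ)
            · exact hne1 hc1 h.symm
        · match w, hl with
          | [b1, b2, b3], _ =>
            simp only [List.cons.injEq] at hw1
            obtain ⟨rfl, rfl, rfl⟩ := hw1
            simp at hlast hch
            subst hlast
            exact no5 hsys (cor_sym hcμ) hch.1 hch.2 (cor_sym hcz) h1
      · -- closed walk `e'`, `w`, `μ`
        have h1 : (XX hg hgeo hι).Cor e' μ := by
          have h1 := hca' hcμ
          rwa [hfixμ' hμ (hsμ hs2 hcμ), he, act_back] at h1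
        rcases hl with hl | hl
        · match w, hl with
          | [b1, b2], _ =>
            simp only [List.cons.injEq] at hw1
            obtain ⟨rfl, rfl, -⟩ := hw1
            simp at hlast hch
            subst hlast
            rcases four hsys (cor_sym hc) hch hcμ (cor_sym h1) with h | h
            · exact hne1 hce' (by rw [← he]; exact h.symm)
            · exact hc1 (by rw [h]; exact hμ)
        · match w, hl with
          | [b1, b2, b3], _ =>
            simp only [List.cons.injEq] at hw1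
            obtain ⟨rfl, rfl, rfl⟩ := hw1
            simp at hlast hch
            subst hlast
            exact no5 hsys (cor_sym hc) hch.1 hch.2 hcμ (cor_sym h1)
    · rintro ⟨μ, hμ, hcμ⟩ ⟨ν, hν, hcν⟩
      have h1 : (XX hg hgeo hι).Cor e' ν := by
        have h1 := hca' hcν
        rwa [hfixμ' hν (hsμ hs2 hcν), he, act_back] at h1
      by_cases hμν : μ = ν
      · subst hμν
        exact no3 hsys (cor_sym hcμ) hc h1
      · have := (tw_ G A B g hg hgeo hι hA [μ, e₁, e', ν] μ ν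
          ⟨by simp [cor_sym hcμ, hc, h1], by simp, by simp⟩
          ⟨μ, e₁, [e', ν], rfl, by rw [hμ]; exact hc1⟩
          ⟨[μ, e₁], e', ν, rfl, by rw [hν]; exact hce'⟩
          (isH_pl hF hμ) (by rw [hμ, hν]) hμν).1
        simp at this

variable (hg hgeo hι)

/-- TIP0, case (b) -/
def Tip0bStmt : Prop := ∀ (c : ℕ → Car A B g) (ρ : ℕ → PP A B g) (n : ℕ)
  (C : Cfg (XV A B g) (XE A B g)) (b e : ℕ) (W : ℕ → List (XE A B g)),
  Chn hg hgeo hι c ρ n → Ok hg hgeo hι c n C → Nb C → H52.Pc hg hgeo hι c C b e W → ∀ t,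
  b < C.o (t + 1) → C.m (t + 1) < e → C.s (t + 1) = [] →
  ρ (t + 1) • C.xm (t + 1) = C.xm (t + 1) → TipBd hg hgeo hι c ρ C W (t + 1)

variable {hg hgeo hι}

/-- TIP0, case (b) -/
theorem tip0b (hA : ∀ x ∈ A, ∀ y ∈ A, x * y = y * x) (hSt : StabStmt A B g)
    (hPr : PrjStmt hg hgeo hι) : Tip0bStmt hg hgeo hι := by
  intro c ρ n C b e W hCh hOk hNb hP t hb he hs hxx
  have hn := hCh.ps
  have hm : C.m (t + 1) = C.o (t + 1) := C.m_eq_o.2 hs
  have h1 := eP_prj hCh hOk (t + 1)
  have h2 := eM_prj hCh hOk t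
  have hxp : C.xm (t + 1) = C.xp (t + 1) := by
    have h3 := (hOk.side (t + 1)).1
    rw [hs] at h3
    exact h3
  rw [← hxp] at h1
  -- the walk
  have hmlt := (hOk.pos hn).m_lt t
  obtain ⟨g1, g2, l1, r1, -, -, hw1, -, -, k2⟩ := hP.edg (C.o (t + 1) - 1) (by omega) (by omega)
  obtain ⟨f1, f2, l2, r2, -, hw2, -, -, k1, -⟩ := hP.edg (C.o (t + 1)) (by omega) (by omega)
  have ho : C.o (t + 1) - 1 + 1 = C.o (t + 1) := by omega
  rw [ho] at hw1
  have hg2 := k2 t (by omega)
  have hf1 := k1 (t + 1) (by rw [hm])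
  have hw1' : W (C.o (t + 1)) = eM C (t + 1) :: xinv g2 :: r1 := hw1
  have hw2' : W (C.o (t + 1)) = l2 ++ [f1, eP C (t + 1)] := by rw [eP, hm]; exact hw2
  set z := ρ (t + 1) with hz
  set e' := actE z⁻¹ (eP C (t + 1)) with he'
  have hez : eP C (t + 1) = actE z e' := (act_back' z _).symm
  have hzc : z⁻¹ • c (t + 1 + 1) = c t := by
    rw [show c (t + 1 + 1) = c (t + 2) from rfl, ← hCh.nx t, inv_smul_smul]
  have hzx : z⁻¹ • C.xm (t + 1) = C.xm (t + 1) := by
    conv_lhs => rw [← hxx]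
    rw [inv_smul_smul]
  have hpr' : Prj hg hgeo hι (c t) (C.xm (t + 1)) e' := by
    have := prj_act z⁻¹ h1
    rwa [hzc, hzx] at this
  have hor : eM C (t + 1) = e' ∨ (XX hg hgeo hι).Cor (eM C (t + 1)) e' :=
    hPr (c t) _ _ _ (hCh.pl t) h2 hpr'
  obtain ⟨cA, cB⟩ := tip0b_core hA hSt (hCh.pl (t + 1)) (hCh.st (t + 1)) (hCh.n1 (t + 1))
    (hOk.om (t + 1)) hxx h2.1 h1.1 (eM_car hCh hOk t) (eP_car hCh hOk (t + 1))
    (hP.chain (C.o (t + 1)) (by omega) (by omega)) (hP.red (C.o (t + 1)) (by omega) (by omega))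
    hw1' hw2' hf1 (by rw [car_inv]; exact hg2)
  have hTp : Tp C W (t + 1) = val (W (C.o (t + 1))) := by
    unfold Tp
    rw [hm, Finset.Icc_self, Finset.sum_singleton]
  have hv : val (W (C.o (t + 1))) = 4 - (W (C.o (t + 1))).length := rfl
  have htm : tcm hg hgeo hι c C (t + 1) ↔
      ∃ μ, car μ = c (t + 1) ∧ (XX hg hgeo hι).Cor (eM C (t + 1)) μ := Iff.rfl
  have htp : tcp hg hgeo hι c C (t + 1) ↔
      ∃ μ, car μ = c (t + 1) ∧ (XX hg hgeo hι).Cor (eP C (t + 1)) μ := Iff.rfl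
  rw [← htm, ← htp] at cA
  simp only [← htm, ← htp] at cB
  rw [TipBd, hTp, hv]
  by_cases hee : e' = eM C (t + 1)
  · obtain ⟨a1, a2, a3⟩ := cA (by rw [hez, hee])
    refine ⟨fun h5 _ => ?_, fun h5 => ?_, by omega, fun h5 => by omega, fun h5 => ?_⟩
    · have := a3 (Or.inl h5); omega
    · have := a3 h5; omega
    · left
      obtain ⟨f, b1, b2, b3⟩ := a2 (by omega)
      exact ⟨hs, hxx, by rw [hez, hee], f, b1, b2, b3⟩
  · have hcor := hor.resolve_left (fun h => hee h.symm)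
    obtain ⟨a1, a2, a3, a4⟩ := cB e' hez hcor
    refine ⟨fun h5 h6 => (a4 h5 h6).elim, fun h5 => ?_, by omega, fun h5 => ?_, fun h5 => ?_⟩
    · have := a3 h5; omega
    · obtain ⟨b1, b2⟩ := a2 (by omega)
      have h6 : c (t + 1 + 5) = c t := hCh.pc t
      exact ⟨hs, hxx, b1, e', by rw [h6]; exact hpr', cor_sym hcor, hez, b2⟩
    · right
      refine ⟨⟨e', hee, ?_⟩, ⟨actE z (eM C (t + 1)), ?_, ?_⟩⟩
      · have h6 : c (t + 1 + 5) = c t := hCh.pc t
        rw [h6]; exact hpr'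
      · intro h6
        apply hee
        rw [he', ← h6, act_back]
      · have := prj_act z h2
        rw [hxx, hCh.nx t, hxp] at this
        exact this

/-- TIP0 -/
theorem tip0 (hA : ∀ x ∈ A, ∀ y ∈ A, x * y = y * x) (hSt : StabStmt A B g)
    (hPr : PrjStmt hg hgeo hι) (hEd : EdgeStmt hg hgeo hι) (hNs : NsegStmt hg hgeo hι) :
    Tip0Stmt hg hgeo hι := by
  intro c ρ n C b e W hCh hOk hNb hP t hb he hs
  by_cases hxx : ρ (t + 1) • C.xm (t + 1) = C.xm (t + 1)
  · exact tip0b hA hSt hPr c ρ n C b e W hCh hOk hNb hP t hb he hs hxx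
  · exact tip0a hA hPr hEd hNs c ρ n C b e W hCh hOk hNb hP t hb he hs hxx

end Pool.Agent.ABA.B.H49
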