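import Pool.Agent.Helper49_ABB.WalkSt
import Pool.Agent.Helper17_ABA.PR2

/-! # Walks in links: general level (module WALK, MP_d857f1_al, part B) -/

namespace Pool.Agent.ABA.B.H49

open Knd Pool.Agent.ABA Pool.Agent.ABA.B Pool.Agent.ABA.B.TG Pool.Agent.ABA.B.H17

section general

variable {V E : Type} {S : TG V E}

theorem cor_irr (a : E) : ¬ S.Cor a a := by
  rintro ⟨c, hc⟩
  have h1 := S.δ_tri hc
  have h2 := S.δ_ne c
  omega

theorem cor_ne {a b : E} (h : S.Cor a b) : a ≠ b := by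
  rintro rfl; exact cor_irr a h

theorem cor_sym {a b : E} (h : S.Cor a b) : S.Cor b a := by
  obtain ⟨c, hc⟩ := h
  exact ⟨_, S.tri_swap hc⟩

variable (hsys : ∀ v, CRW S v → 6 ≤ v.length)
include hsys

theorem no3 {a b c : E} (h1 : S.Cor a b) (h2 : S.Cor b c) (h3 : S.Cor c a) : False := by
  have h := hsys [a, b, c] ⟨by simp, by simp [h1, h2, h3], by
    apply (red_iff _).2
    intro i hi
    have hi' : i = 0 ∨ i = 1 ∨ i = 2 := by simp at hi; omega
    rcases hi' with rfl | rfl | rfl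
    · simpa using (cor_ne h3).symm
    · simpa using (cor_ne h1).symm
    · simpa using (cor_ne h2).symm⟩
  simp at h

theorem four {a b c d : E} (h1 : S.Cor a b) (h2 : S.Cor b c) (h3 : S.Cor c d) (h4 : S.Cor d a) :
    a = c ∨ b = d := by
  by_contra hcon
  push Not at hcon
  have h := hsys [a, b, c, d] ⟨by simp, by simp [h1, h2, h3, h4], by
    apply (red_iff _).2
    intro i hi
    have hi' : i = 0 ∨ i = 1 ∨ i = 2 ∨ i = 3 := by simp at hi; omega
    rcases hi' with rfl | rfl | rfl | rfl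
    · simpa using hcon.1
    · simpa using hcon.2
    · simpa using hcon.1.symm
    · simpa using hcon.2.symm⟩
  simp at h

theorem no5 {a b c d e : E} (h1 : S.Cor a b) (h2 : S.Cor b c) (h3 : S.Cor c d) (h4 : S.Cor d e)
    (h5 : S.Cor e a) : False := by
  by_cases c1 : a = c
  · subst c1; exact no3 hsys h3 h4 h5
  by_cases c2 : b = d
  · subst c2; exact no3 hsys h1 h4 h5
  by_cases c3 : c = e
  · subst c3; exact no3 hsys h1 h2 h5
  by_cases c4 : d = a
  · subst c4; exact no3 hsys h1 h2 h3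
  by_cases c5 : e = b
  · subst c5; exact no3 hsys h2 h3 h4
  have h := hsys [a, b, c, d, e] ⟨by simp, by simp [h1, h2, h3, h4, h5], by
    apply (red_iff _).2
    intro i hi
    have hi' : i = 0 ∨ i = 1 ∨ i = 2 ∨ i = 3 ∨ i = 4 := by simp at hi; omega
    rcases hi' with rfl | rfl | rfl | rfl | rfl
    · simpa using c1
    · simpa using c2
    · simpa using c3
    · simpa using c4
    · simpa using c5⟩
  simp at h

end general

theorem oddFour : OddFourStmt := by
  intro V E S hsys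
  refine ⟨?_, fun a b c d h1 h2 h3 h4 => four hsys h1 h2 h3 h4⟩
  intro v hv
  refine ⟨?_, ?_, ?_⟩
  · intro hl
    obtain ⟨a, rfl⟩ := List.length_eq_one_iff.1 hl
    simp at hv
    exact cor_irr a hv
  · intro hl
    match v, hl with
    | [a, b, c], _ =>
      simp at hv
      exact no3 hsys hv.1 hv.2.1 hv.2.2
  · intro hl
    match v, hl with
    | [a, b, c, d, e], _ =>
      simp at hv
      exact no5 hsys hv.1 hv.2.1 hv.2.2.1 hv.2.2.2.1 hv.2.2.2.2

theorem loop_ : LoopStmt := by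
  rintro V E S v x ⟨h1, h2, h3⟩ hl
  match v, hl with
  | [a, b], _ =>
    simp at h1 h2 h3
    subst h2; subst h3
    exact absurd h1 (cor_irr _)
  | a :: b :: c :: v, _ => simp

theorem pair_ : PairStmt := by
  rintro V E S hsys p q x y ⟨h1, h2, h3⟩ ⟨h4, h5, h6⟩ hxy hp hq
  by_cases hl : 8 ≤ p.length + q.length
  · exact Or.inl hl
  right
  have hcase : (p.length = 3 ∧ q.length = 3) ∨ (p.length = 3 ∧ q.length = 4) ∨
      (p.length = 4 ∧ q.length = 3) := by omega
  rcases hcase with ⟨hp, hq⟩ | ⟨hp, hq⟩ | ⟨hp, hq⟩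
  · match p, hp, q, hq with
    | [a, b, c], _, [a', b', c'], _ =>
      simp at h1 h2 h3 h4 h5 h6
      subst h2; subst h3; subst h5; subst h6
      rcases four hsys h1.1 h1.2 h4.1 h4.2 with h | h
      · exact absurd h hxy
      · subst h; exact ⟨_, rfl, rfl⟩
  · match p, hp, q, hq with
    | [a, b, c], _, [a', b', c', d'], _ =>
      simp at h1 h2 h3 h4 h5 h6
      subst h2; subst h3; subst h5; subst h6
      exact (no5 hsys h1.1 h1.2 h4.1 h4.2.1 h4.2.2).elim
  · match p, hp, q, hq with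
    | [a, b, c, d], _, [a', b', c'], _ =>
      simp at h1 h2 h3 h4 h5 h6
      subst h2; subst h3; subst h5; subst h6
      exact (no5 hsys h1.1 h1.2.1 h1.2.2 h4.1 h4.2).elim

/-- a walk between different letters has at least two letters -/
theorem Wk.two {V E : Type} {S : TG V E} {v : List E} {x y : E} (h : Wk S v x y) (hxy : x ≠ y) :
    2 ≤ v.length := by
  obtain ⟨-, h2, h3⟩ := h
  match v with
  | [] => simp at h2
  | [a] =>
    simp at h2 h3
    subst h2
    exact absurd h3 hxy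
  | a :: b :: v => simp

theorem hub_ : HubStmt := by
  rintro V E S hsys p q r x y z hp hq hr hxy hyz hzx
  have l1 := hp.two hxy
  have l2 := hq.two hyz
  have l3 := hr.two hzx
  obtain ⟨p1, p2, p3⟩ := hp
  obtain ⟨q1, q2, q3⟩ := hq
  obtain ⟨r1, r2, r3⟩ := hr
  by_cases hl : 9 ≤ p.length + q.length + r.length
  · exact Or.inl hl
  right
  have hcase : (p.length = 2 ∧ q.length = 2 ∧ r.length = 2) ∨
      (p.length = 3 ∧ q.length = 2 ∧ r.length = 2) ∨
      (p.length = 2 ∧ q.length = 3 ∧ r.length = 2) ∨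
      (p.length = 2 ∧ q.length = 2 ∧ r.length = 3) ∨
      (p.length = 3 ∧ q.length = 3 ∧ r.length = 2) ∨
      (p.length = 3 ∧ q.length = 2 ∧ r.length = 3) ∨
      (p.length = 2 ∧ q.length = 3 ∧ r.length = 3) ∨
      (p.length = 4 ∧ q.length = 2 ∧ r.length = 2) ∨
      (p.length = 2 ∧ q.length = 4 ∧ r.length = 2) ∨
      (p.length = 2 ∧ q.length = 2 ∧ r.length = 4) := by omega
  rcases hcase with ⟨hp, hq, hr⟩ | ⟨hp, hq, hr⟩ | ⟨hp, hq, hr⟩ | ⟨hp, hq, hr⟩ | ⟨hp, hq, hr⟩ |
    ⟨hp, hq, hr⟩ | ⟨hp, hq, hr⟩ | ⟨hp, hq, hr⟩ | ⟨hp, hq, hr⟩ | ⟨hp, hq, hr⟩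
  · match p, hp, q, hq, r, hr with
    | [a, b], _, [a', b'], _, [a'', b''], _ =>
      simp at p1 p2 p3 q1 q2 q3 r1 r2 r3
      subst p2; subst p3; subst q2; subst q3; subst r2; subst r3
      exact (no3 hsys p1 q1 r1).elim
  · match p, hp, q, hq, r, hr with
    | [a, c, b], _, [a', b'], _, [a'', b''], _ =>
      simp at p1 p2 p3 q1 q2 q3 r1 r2 r3
      subst p2; subst p3; subst q2; subst q3; subst r2; subst r3
      exact Or.inr (Or.inr ⟨q1, r1⟩)
  · match p, hp, q, hq, r, hr with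
    | [a, b], _, [a', c, b'], _, [a'', b''], _ =>
      simp at p1 p2 p3 q1 q2 q3 r1 r2 r3
      subst p2; subst p3; subst q2; subst q3; subst r2; subst r3
      exact Or.inl ⟨r1, p1⟩
  · match p, hp, q, hq, r, hr with
    | [a, b], _, [a', b'], _, [a'', c, b''], _ =>
      simp at p1 p2 p3 q1 q2 q3 r1 r2 r3
      subst p2; subst p3; subst q2; subst q3; subst r2; subst r3
      exact Or.inr (Or.inl ⟨p1, q1⟩)
  · match p, hp, q, hq, r, hr with
    | [a, c, b], _, [a', c', b'], _, [a'', b''], _ =>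
      simp at p1 p2 p3 q1 q2 q3 r1 r2 r3
      subst p2; subst p3; subst q2; subst q3; subst r2; subst r3
      exact (no5 hsys p1.1 p1.2 q1.1 q1.2 r1).elim
  · match p, hp, q, hq, r, hr with
    | [a, c, b], _, [a', b'], _, [a'', c', b''], _ =>
      simp at p1 p2 p3 q1 q2 q3 r1 r2 r3
      subst p2; subst p3; subst q2; subst q3; subst r2; subst r3
      exact (no5 hsys p1.1 p1.2 q1 r1.1 r1.2).elim
  · match p, hp, q, hq, r, hr with
    | [a, b], _, [a', c, b'], _, [a'', c', b''], _ =>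
      simp at p1 p2 p3 q1 q2 q3 r1 r2 r3
      subst p2; subst p3; subst q2; subst q3; subst r2; subst r3
      exact (no5 hsys p1 q1.1 q1.2 r1.1 r1.2).elim
  · match p, hp, q, hq, r, hr with
    | [a, c, c', b], _, [a', b'], _, [a'', b''], _ =>
      simp at p1 p2 p3 q1 q2 q3 r1 r2 r3
      subst p2; subst p3; subst q2; subst q3; subst r2; subst r3
      exact (no5 hsys p1.1 p1.2.1 p1.2.2 q1 r1).elim
  · match p, hp, q, hq, r, hr with
    | [a, b], _, [a', c, c', b'], _, [a'', b''], _ =>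
      simp at p1 p2 p3 q1 q2 q3 r1 r2 r3
      subst p2; subst p3; subst q2; subst q3; subst r2; subst r3
      exact (no5 hsys p1 q1.1 q1.2.1 q1.2.2 r1).elim
  · match p, hp, q, hq, r, hr with
    | [a, b], _, [a', b'], _, [a'', c, c', b''], _ =>
      simp at p1 p2 p3 q1 q2 q3 r1 r2 r3
      subst p2; subst p3; subst q2; subst q3; subst r2; subst r3
      exact (no5 hsys p1 q1 r1.1 r1.2.1 r1.2.2).elim

theorem att_ : AttStmt := by
  rintro V E S hsys p q x e hp hq rp rq hxe
  have l1 := hp.two hxe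
  have l2 := hq.two hxe.symm
  obtain ⟨p1, p2, p3⟩ := hp
  obtain ⟨q1, q2, q3⟩ := hq
  by_cases hl : 8 ≤ p.length + q.length
  · exact Or.inr (Or.inr hl)
  have hcase : (p.length = 2 ∧ q.length = 2) ∨ (p.length = 2 ∧ q.length = 3) ∨
      (p.length = 2 ∧ q.length = 4) ∨ (p.length = 2 ∧ q.length = 5) ∨
      (p.length = 3 ∧ q.length = 2) ∨ (p.length = 3 ∧ q.length = 3) ∨
      (p.length = 3 ∧ q.length = 4) ∨ (p.length = 4 ∧ q.length = 2) ∨
      (p.length = 4 ∧ q.length = 3) ∨ (p.length = 5 ∧ q.length = 2) := by omega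
  rcases hcase with ⟨hp, hq⟩ | ⟨hp, hq⟩ | ⟨hp, hq⟩ | ⟨hp, hq⟩ | ⟨hp, hq⟩ | ⟨hp, hq⟩ | ⟨hp, hq⟩ |
    ⟨hp, hq⟩ | ⟨hp, hq⟩ | ⟨hp, hq⟩
  · left
    match p, hp, q, hq with
    | [a, b], _, [a', b'], _ =>
      simp at p1 p2 p3 q1 q2 q3
      subst p2; subst p3; subst q2; subst q3
      exact ⟨rfl, rfl, p1⟩
  · match p, hp, q, hq with
    | [a, b], _, [a', c', b'], _ =>
      simp at p1 p2 p3 q1 q2 q3
      subst p2; subst p3; subst q2; subst q3
      exact (no3 hsys p1 q1.1 q1.2).elim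
  · match p, hp, q, hq with
    | [a, b], _, [a', c', d', b'], _ =>
      simp at p1 p2 p3 q1 q2 q3
      subst p2; subst p3; subst q2; subst q3
      rcases four hsys p1 q1.1 q1.2.1 q1.2.2 with h | h
      · exact (rq [_] c' d' _ [] rfl h.symm).elim
      · exact (rq [] _ c' d' [_] rfl h).elim
  · match p, hp, q, hq with
    | [a, b], _, [a', c', d', e', b'], _ =>
      simp at p1 p2 p3 q1 q2 q3
      subst p2; subst p3; subst q2; subst q3
      exact (no5 hsys p1 q1.1 q1.2.1 q1.2.2.1 q1.2.2.2).elim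
  · match p, hp, q, hq with
    | [a, c, b], _, [a', b'], _ =>
      simp at p1 p2 p3 q1 q2 q3
      subst p2; subst p3; subst q2; subst q3
      exact (no3 hsys p1.1 p1.2 q1).elim
  · exact Or.inr (Or.inl ⟨hp, hq⟩)
  · match p, hp, q, hq with
    | [a, c, b], _, [a', c', d', b'], _ =>
      simp at p1 p2 p3 q1 q2 q3
      subst p2; subst p3; subst q2; subst q3
      exact (no5 hsys p1.1 p1.2 q1.1 q1.2.1 q1.2.2).elim
  · match p, hp, q, hq with
    | [a, c, d, b], _, [a', b'], _ =>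
      simp at p1 p2 p3 q1 q2 q3
      subst p2; subst p3; subst q2; subst q3
      rcases four hsys p1.1 p1.2.1 p1.2.2 q1 with h | h
      · exact (rp [] _ c d [_] rfl h).elim
      · exact (rp [_] c d _ [] rfl h).elim
  · match p, hp, q, hq with
    | [a, c, d, b], _, [a', c', b'], _ =>
      simp at p1 p2 p3 q1 q2 q3
      subst p2; subst p3; subst q2; subst q3
      exact (no5 hsys p1.1 p1.2.1 p1.2.2 q1.1 q1.2).elim
  · match p, hp, q, hq with
    | [a, c, d, e', b], _, [a', b'], _ =>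
      simp at p1 p2 p3 q1 q2 q3
      subst p2; subst p3; subst q2; subst q3
      exact (no5 hsys p1.1 p1.2.1 p1.2.2.1 p1.2.2.2 q1).elim

end Pool.Agent.ABA.B.H49
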