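import Pool.Agent.Helper49_ABB.Walk1
import Pool.Agent.Helper89_ABA.PLink8

/-! # Walks in links: the triangle graph of `P` (module WALK, MP_d857f1_al, part B) -/

namespace Pool.Agent.ABA.B.H49

open Knd Pool.Agent.ABA Pool.Agent.ABA.B Pool.Agent.ABA.B.TG Pool.Agent.ABA.B.H17
  Pool.Agent.ABA.B.H89

variable {G : Type} [Group G] {A B : Subgroup G} {g : G}
variable {hg : ¬ IsABA A B g} {hgeo : Geo A B} {hι : Function.Injective (Pι A B g)}

theorem ow20_le : ∀ v : List Knd, ow20 v ≤ 22 * (v.length - 1)
  | [] => by simp [ow20]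
  | [_] => by simp [ow20]
  | a :: b :: l => by
    have h1 := ow20_le (b :: l)
    have h2 := wt_le a b
    simp only [ow20, List.length_cons] at h1 ⊢
    omega

/-- plane letters -/
theorem isH_form {e : XE A B g} (h : (kndE e).isH = true) : ∃ m q, e = eA m q := by
  revert h
  refine XE.ind (P := fun e => (kndE e).isH = true → ∃ m q, e = eA m q) ?_ ?_ e
  · intro m q _; exact ⟨m, q, rfl⟩
  · intro s q h
    rw [kndE_eC, kndC_isH] at h
    exact absurd h (by simp)

/-- line letters -/
theorem isC_form {e : XE A B g} (h : (kndE e).isH = false) : ∃ s q, e = eC s q := by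
  revert h
  refine XE.ind (P := fun e => (kndE e).isH = false → ∃ s q, e = eC s q) ?_ ?_ e
  · intro m q h
    rw [kndE_eA, kndD_isH] at h
    exact absurd h (by simp)
  · intro m q _; exact ⟨m, q, rfl⟩

/-- leaving the carrier of a plane letter: T-corner -/
theorem tee_of {e f : XE A B g} (hc : (XX hg hgeo hι).Cor e f) (he : (kndE e).isH = true)
    (hf : car f ≠ car e) : tee (kndE e) (kndE f) = true := by
  obtain ⟨m, q, rfl⟩ := isH_form he
  refine cor_tee hc ⟨m, rfl⟩ ?_
  rintro ⟨m', rfl⟩
  exact hf rfl

theorem tee_of' {e f : XE A B g} (hc : (XX hg hgeo hι).Cor f e) (he : (kndE e).isH = true)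
    (hf : car f ≠ car e) : tee (kndE e) (kndE f) = true :=
  tee_of (cor_sym hc) he hf

/-- all letters of a walk start at the same vertex -/
theorem Wk.src {v : List (XE A B g)} {e e' : XE A B g} (h : Wk (XX hg hgeo hι) v e e') :
    ∀ f ∈ v, xsrc f = xsrc e :=
  chain_src' h.1 (List.mem_of_mem_head? h.2.1) rfl

theorem Wk.src_eq {v : List (XE A B g)} {e e' : XE A B g} (h : Wk (XX hg hgeo hι) v e e') :
    xsrc e' = xsrc e := h.src e' (List.mem_of_getLast? h.2.2)

theorem Wk.rev {V E : Type} {S : TG V E} {v : List E} {e e' : E} (h : Wk S v e e') :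
    Wk S v.reverse e' e := by
  refine ⟨?_, ?_, ?_⟩
  · rw [List.isChain_reverse]
    exact h.1.imp (fun a b hab => cor_sym hab)
  · rw [List.head?_reverse]; exact h.2.2
  · rw [List.getLast?_reverse]; exact h.2.1

theorem TFst.rev {v : List (XE A B g)} (h : TFst v) : TLst v.reverse := by
  obtain ⟨e, f, w, rfl, h1⟩ := h
  exact ⟨w.reverse, f, e, by simp, h1⟩

theorem TLst.rev {v : List (XE A B g)} (h : TLst v) : TFst v.reverse := by
  obtain ⟨w, f, e, rfl, h1⟩ := h
  exact ⟨e, f, w.reverse, by simp, h1⟩

theorem TFst.form {v : List (XE A B g)} {e e' : XE A B g} (h : TFst v)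
    (hw : Wk (XX hg hgeo hι) v e e') : ∃ f w, v = e :: f :: w ∧ car f ≠ car e ∧
      (XX hg hgeo hι).Cor e f := by
  obtain ⟨e1, f, w, rfl, h1⟩ := h
  have h2 := hw.2.1
  simp only [List.head?_cons, Option.some.injEq] at h2
  subst h2
  exact ⟨f, w, rfl, h1, (List.isChain_cons_cons.1 hw.1).1⟩

theorem TLst.form {v : List (XE A B g)} {e e' : XE A B g} (h : TLst v)
    (hw : Wk (XX hg hgeo hι) v e e') : ∃ w f, v = w ++ [f, e'] ∧ car f ≠ car e' ∧
      (XX hg hgeo hι).Cor f e' := by
  obtain ⟨w, f, e1, rfl, h1⟩ := h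
  have h2 := hw.2.2
  simp at h2
  subst h2
  refine ⟨w, f, rfl, h1, ?_⟩
  have h3 := hw.1
  rw [List.isChain_append] at h3
  exact (List.isChain_cons_cons.1 h3.2.1).1

theorem knd_ : KndStmt := by
  intro G _ A B g hg hgeo hι v e e' hw he hT
  obtain ⟨f, w, -, h1, h2⟩ := hT.form hw
  have h3 := tee_of h2 he h1
  revert h3 he
  generalize kndE e = k; generalize kndE f = k'
  cases k <;> cases k' <;> simp [tee, isH, isO, isPQ]

/-- two letters of the same plane at the same vertex -/
theorem same_plane {e e' : XE A B g} {m : Dr} {q : PP A B g} (hι : Function.Injective (Pι A B g))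
    (he : e = eA m q) (hs : xsrc e' = xsrc e) (hc : car e' = car e) : ∃ m', e' = eA m' q := by
  subst he
  exact (InF_iff_car' hι hs).2 hc

theorem same_line' {e e' : XE A B g} {s : Bool} {q : PP A B g} (hι : Function.Injective (Pι A B g))
    (he : e = eC s q) (hs : xsrc e' = xsrc e) (hc : car e' = car e) : ∃ s', e' = eC s' q := by
  subst he
  obtain ⟨s', q', rfl⟩ := line_letter hc
  rw [car_eC, car_eC] at hc
  rw [xsrc_eC, xsrc_eC] at hs
  exact ⟨s', same_line (m' := s') hι hc.symm hs.symm⟩

theorem ll_ : LLStmt := by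
  intro G _ A B g hg hgeo hι v e e' hw he he' hc hne
  obtain ⟨s, q, h1⟩ := isC_form he
  obtain ⟨s', h2⟩ := same_line' hι h1 hw.src_eq hc.symm
  have hs : s' = !s := by
    have : s ≠ s' := by
      rintro rfl; exact hne (by rw [h1, h2])
    revert this; cases s <;> cases s' <;> simp
  have h3 := walk_CC hw.1 s (by rw [hw.2.1, h1]) (by rw [hw.2.2, h2, hs])
  rw [ow_eq20] at h3
  have h4 := ow20_le (v.map kndE)
  rw [List.length_map] at h4
  have h5 : ((80 : ℕ) : ℝ) ≤ (ow20 (v.map kndE) : ℝ) := by
    have := mul_le_mul_of_nonneg_right h3 (by norm_num : (0 : ℝ) ≤ 20)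
    push_cast
    linarith
  have h6 : 80 ≤ ow20 (v.map kndE) := by exact_mod_cast h5
  omega

theorem exc3_ : Exc3Stmt := by
  intro G _ A B hgeo hA x hx y hy a ha
  constructor
  · intro hy1 ha1 hcon
    obtain ⟨b, hb⟩ : ∃ b, b = x * y * x⁻¹ * a * x := ⟨_, rfl⟩
    rw [← hb] at hcon
    refine wOOOi hgeo hA hx ha (A.inv_mem hcon) hy ha1 hy1 ?_
    rw [hb]; group
  · intro hcon
    obtain ⟨b, hb⟩ : ∃ b, b = x * a * x := ⟨_, rfl⟩
    rw [← hb] at hcon
    refine wOO hgeo hx (A.inv_mem hcon) ha ?_
    rw [hb]; group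

/-! ## (TW) -/

/-- opposite or `{V, U'}` -/
def Spc (k k' : Knd) : Prop := k' = kinv k ∨ (k = vp ∧ k' = um) ∨ (k = um ∧ k' = vp)

theorem Spc.symm {k k' : Knd} (h : Spc k k') : Spc k' k := by
  revert h; cases k <;> cases k' <;> simp [Spc, kinv]

theorem tw_red (hA : ∀ x ∈ A, ∀ y ∈ A, x * y = y * x) {v : List (XE A B g)} {e e' : XE A B g}
    (hw : Wk (XX hg hgeo hι) v e e') (hT : TFst v) (hT' : TLst v) (he : (kndE e).isH = true)
    (hc : car e = car e') (hne : e ≠ e') (hr : Red v) :
    6 ≤ v.length ∧ (Spc (kndE e) (kndE e') → 7 ≤ v.length) := by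
  obtain ⟨m, q, h1⟩ := isH_form he
  obtain ⟨m', h2⟩ := same_plane hι h1 hw.src_eq hc.symm
  have hmm : m ≠ m' := by
    rintro rfl; exact hne (by rw [h1, h2])
  obtain ⟨f, w, hv, hf, -⟩ := hT.form hw
  obtain ⟨w', f', hv', hf', -⟩ := hT'.form hw
  have h3 := walk_out' hA hw.1 hr (by rw [hv, h1]) (by rw [hv', h2])
    (by rintro ⟨m1, h⟩; apply hf; rw [h, h1]; rfl) (by rintro ⟨m1, h⟩; apply hf'; rw [h, h2]; rfl) hmm
  rw [ow_eq20] at h3
  have h4 := ow20_le (v.map kndE)
  rw [List.length_map] at h4
  have h6 : dO (kndD m) (kndD m') ≤ ow20 (v.map kndE) := by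
    have : ((dO (kndD m) (kndD m') : ℕ) : ℝ) ≤ ((ow20 (v.map kndE) : ℕ) : ℝ) := by linarith
    exact_mod_cast this
  rw [h1, h2, kndE_eA, kndE_eA]
  have h7 : 90 ≤ dO (kndD m) (kndD m') := by
    revert hmm; cases m <;> cases m' <;> simp [kndD, dO]
  refine ⟨by omega, ?_⟩
  intro hs
  have h8 : 118 ≤ dO (kndD m) (kndD m') := by
    revert hmm hs; cases m <;> cases m' <;> simp [kndD, dO, Spc, kinv]
  omega

theorem not_red {α : Type} {v : List α} (h : ¬ Red v) :
    ∃ l a b r, v = l ++ a :: b :: a :: r := by
  unfold Red at h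
  push Not at h
  obtain ⟨l, a, b, c, r, h1, rfl⟩ := h
  exact ⟨l, a, b, r, h1⟩

/-- removing a backtrack -/
theorem Wk.back {V E : Type} {S : TG V E} {l r : List E} {a b e e' : E}
    (h : Wk S (l ++ a :: b :: a :: r) e e') : Wk S (l ++ a :: r) e e' := by
  obtain ⟨h1, h2, h3⟩ := h
  refine ⟨?_, ?_, ?_⟩
  · rw [List.isChain_append] at h1 ⊢
    refine ⟨h1.1, (List.isChain_cons_cons.1 (List.isChain_cons_cons.1 h1.2.1).2).2, ?_⟩
    intro x hx y hy
    exact h1.2.2 x hx y (by simpa using hy)
  · cases l with
    | nil => simpa using h2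
    | cons x l => simpa using h2
  · rw [List.getLast?_append] at h3 ⊢
    simpa using h3

/-- short walks ending with a T-corner -/
theorem tw_short {v : List (XE A B g)} {e e' : XE A B g}
    (hw : Wk (XX hg hgeo hι) v e e') (hT' : TLst v) (he : (kndE e).isH = true)
    (hc : car e = car e') (hne : e ≠ e') :
    4 ≤ v.length ∧ (v.length = 4 → ¬ TFst v → ¬ Spc (kndE e) (kndE e')) := by
  have hl := hw.two hne
  obtain ⟨w', f', hv', hf', hcor'⟩ := hT'.form hw
  have he' : (kndE e').isH = true := by
    obtain ⟨m, q, h1⟩ := isH_form he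
    obtain ⟨m', h2⟩ := same_plane hι h1 hw.src_eq hc.symm
    rw [h2, kndE_eA, kndD_isH]
  have ht' := tee_of' hcor' he' hf'
  -- two letters with the same T-neighbour
  have key : ∀ x, (XX hg hgeo hι).Cor x f' → car x = car e' → xsrc x = xsrc e' → x = e' := by
    intro x hx hcx hsx
    obtain ⟨m, q, h1⟩ := isH_form he'
    obtain ⟨m', h2⟩ := same_plane hι h1 hsx hcx
    have ht := tee_of hx (by rw [h2, kndE_eA, kndD_isH]) (by rw [hcx]; exact hf')
    rw [h1, kndE_eA] at ht'
    rw [h2, kndE_eA] at ht
    have : m = m' := by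
      revert ht ht'; generalize kndE f' = k
      cases m <;> cases m' <;> cases k <;> simp [kndD, tee]
    rw [h1, h2, this]
  have h4 : 4 ≤ v.length := by
    by_contra hcon
    have hcase : v.length = 2 ∨ v.length = 3 := by omega
    rcases hcase with h | h
    · match v, h with
      | [a, b], _ =>
        have h5 := hw.2.1
        have h6 := hw.2.2
        simp at h5 h6
        subst h5; subst h6
        have : w' = [] ∧ a = f' := by
          rcases w' with _ | ⟨x, w'⟩
          · simpa using hv'
          · have := congrArg List.length hv'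
            simp at this
        rw [← this.2] at hf'
        exact hf' hc
    · match v, h with
      | [a, c, b], _ =>
        have h5 := hw.2.1
        have h6 := hw.2.2
        simp at h5 h6
        subst h5; subst h6
        have : w' = [a] ∧ c = f' := by
          rcases w' with _ | ⟨x, _ | ⟨y, w'⟩⟩
          · simp at hv'
          · simp at hv'
            exact ⟨by rw [hv'.1], hv'.2⟩
          · have := congrArg List.length hv'
            simp at this
        have hcor : (XX hg hgeo hι).Cor a f' := by
          rw [← this.2]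
          exact (List.isChain_cons_cons.1 hw.1).1
        exact hne (key a hcor hc hw.src_eq.symm)
  refine ⟨h4, ?_⟩
  intro h4' hnT hs
  match v, h4' with
  | [a, c, d, b], _ =>
    have h5 := hw.2.1
    have h6 := hw.2.2
    simp at h5 h6
    subst h5; subst h6
    have hd : d = f' := by
      rcases w' with _ | ⟨x, _ | ⟨y, _ | ⟨z, w'⟩⟩⟩
      · simp at hv'
      · simp at hv'
      · simp at hv'
        exact hv'.2.2
      · have := congrArg List.length hv'
        simp at this
    subst hd
    have hcc : car c = car a := by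
      by_contra hcon
      exact hnT ⟨a, c, _, rfl, hcon⟩
    have hch := hw.1
    simp only [List.isChain_cons_cons, List.isChain_singleton, and_true] at hch
    have hsc : xsrc c = xsrc a := hw.src c (by simp)
    have h7 := key c hch.2.1 (by rw [hcc, hc]) (by rw [hsc]; exact hw.src_eq.symm)
    subst h7
    -- a, c adjacent in the hexagon
    obtain ⟨m, q, h1⟩ := isH_form he
    obtain ⟨m', h2⟩ := same_plane hι h1 hsc hcc
    have h8 := hch.1
    rw [h1, h2] at h8
    have h9 := cor_hex h8
    rw [h1, h2, kndE_eA, kndE_eA] at hs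
    revert hs h9
    cases m <;> cases m' <;> simp [kndD, Spc, kinv, Dr.nxt]

theorem tw_aux (hA : ∀ x ∈ A, ∀ y ∈ A, x * y = y * x) (n : ℕ) : ∀ (v : List (XE A B g))
    (e e' : XE A B g), v.length = n → Wk (XX hg hgeo hι) v e e' → TFst v → TLst v →
    (kndE e).isH = true → car e = car e' → e ≠ e' →
    6 ≤ n ∧ (Spc (kndE e) (kndE e') → 7 ≤ n) := by
  induction n using Nat.strong_induction_on with
  | _ n ih =>
    intro v e e' hn hw hT hT' he hc hne
    by_cases hr : Red v
    · rw [← hn]
      exact tw_red hA hw hT hT' he hc hne hr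
    obtain ⟨l, a, b, r, hv⟩ := not_red hr
    have he' : (kndE e').isH = true := by
      obtain ⟨m, q, h1⟩ := isH_form he
      obtain ⟨m', h2⟩ := same_plane hι h1 hw.src_eq hc.symm
      rw [h2, kndE_eA, kndD_isH]
    -- one-sided lemma
    have side : ∀ (v r : List (XE A B g)) (e e' b : XE A B g), v.length = n →
        Wk (XX hg hgeo hι) v e e' → TLst v → (kndE e).isH = true → car e = car e' →
        e ≠ e' → v = e :: b :: e :: r → 6 ≤ n ∧ (Spc (kndE e) (kndE e') → 7 ≤ n) := by
      intro v r e e' b hn hw hT' he hc hne hv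
      have hw2 : Wk (XX hg hgeo hι) (e :: r) e e' := by
        rw [hv] at hw
        exact Wk.back (l := []) hw
      have hlen : v.length = (e :: r).length + 2 := by rw [hv]; simp
      have hT2 : TLst (e :: r) := by
        obtain ⟨w', f', hv', hf', -⟩ := hT'.form hw
        rcases List.eq_nil_or_concat r with rfl | ⟨r1, x, rfl⟩
        · exfalso
          have := hw2.2.2
          simp at this
          exact hne this
        · rw [List.concat_eq_append] at hv hw2 ⊢
          have hx : x = e' := by
            have := hw2.2.2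
            rw [← List.cons_append, List.getLast?_append] at this
            simpa using this
          subst hx
          rcases List.eq_nil_or_concat r1 with rfl | ⟨r2, y, rfl⟩
          · exfalso
            have h1 : w' ++ [f', x] = [e, b] ++ [e, x] := by rw [← hv', hv]; rfl
            have h2 := List.append_inj_right' h1 rfl
            simp only [List.cons.injEq, and_true] at h2
            exact hf' (by rw [h2]; exact hc)
          · rw [List.concat_eq_append] at hv ⊢
            have h1 : w' ++ [f', x] = (e :: b :: e :: r2) ++ [y, x] := by rw [← hv', hv]; simp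
            have h2 := List.append_inj_right' h1 rfl
            simp only [List.cons.injEq, and_true] at h2
            exact ⟨e :: r2, y, x, by simp, by rw [← h2]; exact hf'⟩
      obtain ⟨s1, s2⟩ := tw_short hw2 hT2 he hc hne
      rw [hn] at hlen
      refine ⟨by omega, ?_⟩
      intro hsp
      by_contra hcon
      have h4 : (e :: r).length = 4 := by omega
      by_cases hT3 : TFst (e :: r)
      · have := (ih (e :: r).length (by omega) (e :: r) e e' rfl hw2 hT3 hT2 he hc hne).1
        omega
      · exact s2 h4 hT3 hsp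
    rcases l with _ | ⟨x, l⟩
    · have ha : a = e := by
        have := hw.2.1
        rw [hv] at this
        simpa using this
      subst ha
      exact side v r a e' b hn hw hT' he hc hne hv
    rcases List.eq_nil_or_concat r with rfl | ⟨r1, y, rfl⟩
    · have ha : a = e' := by
        have := hw.2.2
        rw [hv, List.getLast?_append] at this
        simpa using this
      subst ha
      have h1 := side v.reverse (x :: l).reverse a e b (by rw [List.length_reverse]; exact hn) hw.rev
        hT.rev he' hc.symm (Ne.symm hne) (by rw [hv]; simp)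
      exact ⟨h1.1, fun hs => h1.2 hs.symm⟩
    · rw [List.concat_eq_append] at hv
      have hw2 : Wk (XX hg hgeo hι) ((x :: l) ++ a :: (r1 ++ [y])) e e' := by
        rw [hv] at hw
        exact Wk.back hw
      have hlen : v.length = ((x :: l) ++ a :: (r1 ++ [y])).length + 2 := by
        rw [hv]; simp; omega
      have hT2 : TFst ((x :: l) ++ a :: (r1 ++ [y])) := by
        obtain ⟨e1, f, w, h1, h2⟩ := hT
        rw [hv] at h1
        rcases l with _ | ⟨z, l⟩
        · simp only [List.cons_append, List.nil_append, List.cons.injEq] at h1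
          exact ⟨x, a, r1 ++ [y], rfl, by rw [h1.1, h1.2.1]; exact h2⟩
        · simp only [List.cons_append, List.cons.injEq] at h1
          exact ⟨x, z, l ++ a :: (r1 ++ [y]), rfl, by rw [h1.1, h1.2.1]; exact h2⟩
      have hT3 : TLst ((x :: l) ++ a :: (r1 ++ [y])) := by
        obtain ⟨w, f, e1, h1, h2⟩ := hT'
        rw [hv] at h1
        rcases List.eq_nil_or_concat r1 with rfl | ⟨r2, z, rfl⟩
        · have h3 : ((x :: l) ++ [a, b]) ++ [a, y] = w ++ [f, e1] := by rw [← h1]; simp
          have h4 := List.append_inj_right' h3 rfl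
          simp only [List.cons.injEq, and_true] at h4
          exact ⟨x :: l, a, y, by simp, by rw [h4.1, h4.2]; exact h2⟩
        · rw [List.concat_eq_append] at h1 ⊢
          have h3 : ((x :: l) ++ a :: b :: a :: r2) ++ [z, y] = w ++ [f, e1] := by
            rw [← h1]; simp
          have h4 := List.append_inj_right' h3 rfl
          simp only [List.cons.injEq, and_true] at h4
          exact ⟨(x :: l) ++ a :: r2, z, y, by simp, by rw [h4.1, h4.2]; exact h2⟩
      rw [hn] at hlen
      have := ih _ (by omega) _ e e' rfl hw2 hT2 hT3 he hc hne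
      exact ⟨by omega, fun hs => by have := this.2 hs; omega⟩

theorem tw_ : TWStmt := by
  intro G _ A B g hg hgeo hι hA v e e' hw hT hT' he hc hne
  exact tw_aux hA _ v e e' rfl hw hT hT' he hc hne

end Pool.Agent.ABA.B.H49
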