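import Pool.Agent.Helper49_ABB.Walk2

/-! # Walks between different hexagons (module WALK, MP_d857f1_al, part B) -/

namespace Pool.Agent.ABA.B.H49

open Knd Pool.Agent.ABA Pool.Agent.ABA.B Pool.Agent.ABA.B.TG Pool.Agent.ABA.B.H17
  Pool.Agent.ABA.B.H89

variable {G : Type} [Group G] {A B : Subgroup G} {g : G}
variable {hg : ¬ IsABA A B g} {hgeo : Geo A B} {hι : Function.Injective (Pι A B g)}

theorem h2g_ : H2GStmt := by
  intro G _ A B g hg hgeo hι p m m' k k' hcor hk
  rcases (cor_iff _ _).1 hcor with ⟨m1, q, h1, h2⟩ | ⟨m1, q, h1, h2⟩ | ⟨q, h1, h2⟩ | ⟨q, h1, h2⟩ |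
    ⟨q, h1, h2⟩ | ⟨q, h1, h2⟩ | ⟨q, h1, h2⟩ | ⟨q, h1, h2⟩
  · exfalso
    obtain ⟨-, a, ha, h3⟩ := eA_eq.1 h1
    obtain ⟨-, a', ha', h4⟩ := eA_eq.1 h2
    rw [h3, mul_assoc, mul_assoc, ← map_mul, ← map_mul] at h4
    have h5 := hι (mul_left_cancel h4)
    apply hk
    have : k⁻¹ * k' = a * a'⁻¹ := by
      rw [inv_mul_eq_iff_eq_mul, ← mul_assoc, h5]; group
    rw [this]
    exact A.mul_mem ha (A.inv_mem ha')
  · exfalso
    obtain ⟨-, a, ha, h3⟩ := eA_eq.1 h1
    obtain ⟨-, a', ha', h4⟩ := eA_eq.1 h2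
    rw [h3, mul_assoc, mul_assoc, ← map_mul, ← map_mul] at h4
    have h5 := hι (mul_left_cancel h4)
    apply hk
    have : k⁻¹ * k' = a * a'⁻¹ := by
      rw [inv_mul_eq_iff_eq_mul, ← mul_assoc, h5]; group
    rw [this]
    exact A.mul_mem ha (A.inv_mem ha')
  · right
    obtain ⟨h0, a, ha, h3⟩ := eA_eq.1 h1
    obtain ⟨h0', a', ha', h4⟩ := eA_eq.1 h2
    refine ⟨h0, h0', a, ha, a'⁻¹, A.inv_mem ha', ?_⟩
    rw [h4, mul_assoc, mul_assoc, mul_assoc, ← map_mul, ← map_mul, ← map_mul] at h3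
    have h5 := hι (mul_left_cancel h3)
    have : k = k' * (a' * g) * a⁻¹ := by rw [h5]; group
    rw [this]; group
  · left
    obtain ⟨h0, a, ha, h3⟩ := eA_eq.1 h1
    obtain ⟨h0', a', ha', h4⟩ := eA_eq.1 h2
    refine ⟨h0, h0', a, ha, a'⁻¹, A.inv_mem ha', ?_⟩
    rw [h3, mul_assoc, mul_assoc, mul_assoc, ← map_mul, ← map_mul, ← map_mul] at h4
    have h5 := hι (mul_left_cancel h4)
    have : k' = k * (a * g) * a'⁻¹ := by rw [h5]; group
    rw [this]; group
  · exact absurd h1 eA_ne_eC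
  · exact absurd h2 eA_ne_eC
  · exact absurd h2 eA_ne_eC
  · exact absurd h1 eA_ne_eC

/-- P- and Q-corners -/
theorem cor_pq {p : PP A B g} {m : Dr} {k : G} {n : XE A B g}
    (h : (XX hg hgeo hι).Cor (eA m (p * Pι A B g k)) n) (hk : (kndE n).isH = false) :
    ∃ s, ∃ a ∈ A, n = eC s (p * Pι A B g (k * a)) := by
  rcases (cor_iff _ _).1 h with ⟨m1, q, h1, h2⟩ | ⟨m1, q, h1, h2⟩ | ⟨q, h1, h2⟩ | ⟨q, h1, h2⟩ |
    ⟨q, h1, h2⟩ | ⟨q, h1, h2⟩ | ⟨q, h1, h2⟩ | ⟨q, h1, h2⟩
  · exfalso; rw [h2, kndE_eA, kndD_isH] at hk; exact absurd hk (by simp)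
  · exfalso; rw [h2, kndE_eA, kndD_isH] at hk; exact absurd hk (by simp)
  · exfalso; rw [h2, kndE_eA, kndD_isH] at hk; exact absurd hk (by simp)
  · exfalso; rw [h2, kndE_eA, kndD_isH] at hk; exact absurd hk (by simp)
  · exact absurd h1 eA_ne_eC
  · obtain ⟨-, a, ha, h3⟩ := eA_eq.1 h1
    exact ⟨_, a, ha, by rw [h2, h3, map_mul, mul_assoc]⟩
  · obtain ⟨-, a, ha, h3⟩ := eA_eq.1 h1
    exact ⟨_, a, ha, by rw [h2, h3, map_mul, mul_assoc]⟩
  · exact absurd h1 eA_ne_eC

theorem h2_ : H2Stmt := by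
  intro G _ A B g hg hgeo hι v e e' hw hT hT' he he'
  obtain ⟨f, w, hv, hf, hcor⟩ := hT.form hw
  obtain ⟨w', f', hv', hf', hcor'⟩ := hT'.form hw
  have t1 := tee_of hcor he hf
  have t2 := tee_of' hcor' he' hf'
  have hk1 := knd_ G A B g hg hgeo hι v e e' hw he hT
  have hk2 := knd_ G A B g hg hgeo hι v.reverse e' e hw.rev he' hT'.rev
  -- lengths at most four
  have hlen : v.length = 2 ∨ v.length = 3 ∨ v.length = 4 ∨ 5 ≤ v.length := by
    rw [hv]; simp only [List.length_cons]; omega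
  have l2 : v.length = 2 → v = [e, e'] ∧ f = e' ∧ (XX hg hgeo hι).Cor e e' := by
    intro h
    match v, h with
    | [a, b], _ =>
      have h5 := hw.2.1
      have h6 := hw.2.2
      simp at h5 h6
      subst h5; subst h6
      simp at hv
      exact ⟨rfl, hv.1.symm, (List.isChain_cons_cons.1 hw.1).1⟩
  have l3 : v.length = 3 → v = [e, f, e'] ∧ f' = f ∧ (XX hg hgeo hι).Cor f e' := by
    intro h
    match v, h with
    | [a, c, b], _ =>
      have h5 := hw.2.1
      have h6 := hw.2.2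
      simp at h5 h6
      subst h5; subst h6
      simp at hv
      obtain ⟨rfl, rfl⟩ := hv
      have h7 : f' = c := by
        rcases w' with _ | ⟨x, _ | ⟨y, w'⟩⟩
        · simp at hv'
        · simp at hv'
          exact hv'.2.symm
        · have := congrArg List.length hv'
          simp at this
      exact ⟨rfl, h7, (List.isChain_cons_cons.1 (List.isChain_cons_cons.1 hw.1).2).1⟩
  have l4 : v.length = 4 → adj (kndE f) (kndE f') = true := by
    intro h
    match v, h with
    | [a, c, d, b], _ =>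
      have h5 := hw.2.1
      have h6 := hw.2.2
      simp at h5 h6
      subst h5; subst h6
      simp at hv
      obtain ⟨rfl, rfl⟩ := hv
      have h7 : f' = d := by
        rcases w' with _ | ⟨x, _ | ⟨y, _ | ⟨z, w'⟩⟩⟩
        · simp at hv'
        · simp at hv'
        · simp at hv'
          exact hv'.2.2.symm
        · have := congrArg List.length hv'
          simp at this
      rw [h7]
      exact cor_adj (List.isChain_cons_cons.1 (List.isChain_cons_cons.1 hw.1).2).1
  have kk : ∀ a ∈ all, ∀ b ∈ all, ∀ c ∈ all, tee a b = true → tee c b = true → a = c := by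
    decide
  have k4 : ∀ a ∈ all, ∀ b ∈ all, ∀ c ∈ all, ∀ d ∈ all, tee a b = true → tee d c = true →
      adj b c = true → a.isH = true → d.isH = true → isO a = true ∧ isO d = true := by
    decide +kernel
  have k2 : ∀ a ∈ all, ∀ b ∈ all, tee a b = true → a.isH = true → b.isH = true →
      isO a = true ∧ isO b = true ∧ ((a = up ∧ b = vm) ∨ (a = vm ∧ b = up)) := by
    decide
  have OPQ : ∀ k, isO k = true → isPQ k = true → False := by
    intro k h1 h2; rw [isO_not_PQ h1] at h2; exact absurd h2 (by simp)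
  have mix : (isO (kndE e) = true → isPQ (kndE e') = true → 5 ≤ v.length) ∧
      (isPQ (kndE e) = true → isO (kndE e') = true → 5 ≤ v.length) := by
    rcases hlen with h | h | h | h
    · obtain ⟨-, h1, h2⟩ := l2 h
      have h3 := k2 _ (mem_all (kndE e)) _ (mem_all (kndE f)) t1 he (by rw [h1]; exact he')
      rw [h1] at h3
      exact ⟨fun _ h4 => (OPQ _ h3.2.1 h4).elim, fun h4 _ => (OPQ _ h3.1 h4).elim⟩
    · obtain ⟨-, h1, -⟩ := l3 h
      rw [h1] at t2
      have h3 := kk _ (mem_all (kndE e)) _ (mem_all (kndE f)) _ (mem_all (kndE e')) t1 t2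
      rw [h3]
      exact ⟨fun h4 h5 => (OPQ _ h4 h5).elim, fun h4 h5 => (OPQ _ h5 h4).elim⟩
    · have h3 := k4 _ (mem_all (kndE e)) _ (mem_all (kndE f)) _ (mem_all (kndE f')) _
        (mem_all (kndE e')) t1 t2 (l4 h) he he'
      exact ⟨fun _ h4 => (OPQ _ h3.2 h4).elim, fun h4 _ => (OPQ _ h3.1 h4).elim⟩
    · exact ⟨fun _ _ => h, fun _ _ => h⟩
  refine ⟨hk1, hk2, mix.1, mix.2, ?_, ?_⟩
  · intro h1 h2
    rcases hlen with h | h | h | h
    · exfalso
      obtain ⟨-, h3, -⟩ := l2 h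
      have h4 := k2 _ (mem_all (kndE e)) _ (mem_all (kndE f)) t1 he (by rw [h3]; exact he')
      exact OPQ _ h4.1 h1
    · left
      obtain ⟨-, h3, h4⟩ := l3 h
      rw [h3] at t2
      refine ⟨h, kk _ (mem_all (kndE e)) _ (mem_all (kndE f)) _ (mem_all (kndE e')) t1 t2, ?_⟩
      intro p m m' k k' he1 he2
      have hfC : (kndE f).isH = false := by
        revert t1 h1; generalize kndE e = a; generalize kndE f = b
        cases a <;> cases b <;> simp [tee, isPQ, isH]
      rw [he1] at hcor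
      rw [he2] at h4
      obtain ⟨s, a, ha, h5⟩ := cor_pq hcor hfC
      obtain ⟨s', a', ha', h6⟩ := cor_pq (cor_sym h4) hfC
      rw [h5] at h6
      obtain ⟨-, h7⟩ := (eC_iff_G hι).1 h6
      refine ⟨a, ha, (k * a)⁻¹ * (k' * a'), h7, a'⁻¹, A.inv_mem ha', ?_⟩
      group
    · exfalso
      have h3 := k4 _ (mem_all (kndE e)) _ (mem_all (kndE f)) _ (mem_all (kndE f')) _
        (mem_all (kndE e')) t1 t2 (l4 h) he he'
      exact OPQ _ h3.1 h1
    · exact Or.inr h
  · intro h1 h2
    constructor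
    · intro h
      obtain ⟨-, h3, -⟩ := l2 h
      have h4 := k2 _ (mem_all (kndE e)) _ (mem_all (kndE f)) t1 he (by rw [h3]; exact he')
      rw [h3] at h4
      exact h4.2.2
    · intro n h
      have hl : v.length = 3 := by rw [h]; rfl
      obtain ⟨h3, h4, -⟩ := l3 hl
      have h5 : n = f := by
        rw [h3] at h
        simp only [List.cons.injEq, and_true, true_and] at h
        exact h.symm
      rw [h5]
      rw [h4] at t2
      revert t1 t2 h1 h2
      generalize kndE e = a; generalize kndE f = b; generalize kndE e' = c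
      cases a <;> cases b <;> cases c <;> simp [tee, isO]

/-- `ABA` contains the inverses -/
theorem aba_inv {x : G} (h : IsABA A B x) : IsABA A B x⁻¹ := by
  obtain ⟨a, ha, b, hb, c, hc, rfl⟩ := h
  exact ⟨c⁻¹, A.inv_mem hc, b⁻¹, B.inv_mem hb, a⁻¹, A.inv_mem ha, by group⟩

theorem aba_mul {x a b : G} (ha : a ∈ A) (hb : b ∈ A) (h : IsABA A B (a * x * b)) :
    IsABA A B x := by
  obtain ⟨a', ha', y, hy, c, hc, h1⟩ := h
  refine ⟨a⁻¹ * a', A.mul_mem (A.inv_mem ha) ha', y, hy, c * b⁻¹, A.mul_mem hc (A.inv_mem hb), ?_⟩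
  have : x = a⁻¹ * (a * x * b) * b⁻¹ := by group
  rw [this, h1]; group

/-- O-O = 1 and O-O = 2 do not occur for the same pair of hexagons -/
theorem exc_pair (hgeo : Geo A B) (hA : ∀ x ∈ A, ∀ y ∈ A, x * y = y * x) {x k : G} (hx : x ∉ A)
    (h1 : ∃ a ∈ A, ∃ b ∈ A, k = a * x * b ∨ k = a * x⁻¹ * b)
    (h2 : ∃ a ∈ A, ∃ b ∈ A, ∃ c ∈ A, k = a * x * b * x⁻¹ * c) (hk : k ∉ A) : False := by
  obtain ⟨a1, ha1, b1, hb1, h1⟩ := h1
  obtain ⟨a2, ha2, b2, hb2, c2, hc2, h2⟩ := h2
  -- b2 is nontrivial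
  have hb2' : b2 ≠ 1 := by
    rintro rfl
    apply hk
    rw [h2]
    have : a2 * x * 1 * x⁻¹ * c2 = a2 * c2 := by group
    rw [this]
    exact A.mul_mem ha2 hc2
  obtain ⟨a, ha, h3⟩ : ∃ a, a ∈ A ∧ a = a1⁻¹ * a2 := ⟨_, A.mul_mem (A.inv_mem ha1) ha2, rfl⟩
  obtain ⟨c, hc, h4⟩ : ∃ c, c ∈ A ∧ c = c2 * b1⁻¹ := ⟨_, A.mul_mem hc2 (A.inv_mem hb1), rfl⟩
  rcases h1 with h1 | h1
  · -- x = a x b2 x⁻¹ c
    have h5 : x = a * x * b2 * x⁻¹ * c := by
      have : x = a1⁻¹ * k * b1⁻¹ := by rw [h1]; group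
      rw [h3, h4, this]
      conv_lhs => rw [h2]
      conv_rhs => rw [← this]
      group
    -- inverse: x⁻¹ = c⁻¹ x b2⁻¹ x⁻¹ a⁻¹
    by_cases ha' : a = 1
    · subst ha'
      -- x = x b2 x⁻¹ c
      apply hx
      have h6 : b2 * x⁻¹ * c = 1 := by
        have h7 : x * (b2 * x⁻¹ * c) = x * 1 := by
          rw [mul_one]
          conv_rhs => rw [h5]
          group
        exact mul_left_cancel h7
      have : x = c * b2 := by
        have h8 : x⁻¹ = b2⁻¹ * c⁻¹ := by
          have : x⁻¹ = b2⁻¹ * (b2 * x⁻¹ * c) * c⁻¹ := by group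
          rw [this, h6]; group
        rw [← inv_inv x, h8]; group
      rw [this]
      exact A.mul_mem hc hb2
    · -- (a x)(b2 x⁻¹)(c x⁻¹) = 1
      refine wOOiOi hgeo hA hx ha hb2 hc ha' hb2' ?_
      have : a * x * (b2 * x⁻¹) * (c * x⁻¹) = (a * x * b2 * x⁻¹ * c) * x⁻¹ := by group
      rw [this, ← h5, mul_inv_cancel]
  · -- x⁻¹ = a x b2 x⁻¹ c
    have h5 : x⁻¹ = a * x * b2 * x⁻¹ * c := by
      have : x⁻¹ = a1⁻¹ * k * b1⁻¹ := by rw [h1]; group
      rw [h3, h4]
      conv_lhs => rw [this, h2]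
      group
    by_cases hc' : c = 1
    · subst hc'
      apply hx
      have h6 : a * x * b2 = 1 := by
        have h7 : (a * x * b2) * x⁻¹ = 1 * x⁻¹ := by
          rw [one_mul]
          conv_rhs => rw [h5]
          group
        exact mul_right_cancel h7
      have : x = a⁻¹ * b2⁻¹ := by
        have h8 : x = a⁻¹ * (a * x * b2) * b2⁻¹ := by group
        rw [h8, h6]; group
      rw [this]
      exact A.mul_mem (A.inv_mem ha) (A.inv_mem hb2)
    · -- (c x)(a x)(b2 x⁻¹) = 1
      refine wOOOi hgeo hA hx hc ha hb2 hc' hb2' ?_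
      have : c * x * (a * x) * (b2 * x⁻¹) = c * x * (a * x * b2 * x⁻¹ * c) * c⁻¹ := by group
      rw [this, ← h5]; group

/-- setting for two walks between the same pair of hexagons -/
theorem h2_setup {v v' : List (XE A B g)} {e e' f f' : XE A B g}
    (hw : Wk (XX hg hgeo hι) v e e') (hw' : Wk (XX hg hgeo hι) v' f f')
    (hs : xsrc e = xsrc f) (hce : car e = car f) (hce' : car e' = car f') (hne : car e ≠ car e')
    (he : (kndE e).isH = true) (he' : (kndE e').isH = true) :
    ∃ (q : PP A B g) (k : G) (m m' n n' : Dr), k ∉ A ∧ e = eA m (q * Pι A B g 1) ∧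
      e' = eA m' (q * Pι A B g k) ∧ f = eA n (q * Pι A B g 1) ∧ f' = eA n' (q * Pι A B g k) := by
  obtain ⟨m, q, h1⟩ := isH_form he
  obtain ⟨m2, h2⟩ := same_plane hι h1 hs.symm hce.symm
  obtain ⟨m', q', h3⟩ := isH_form he'
  have hv1 : vx q = vx q' := by
    have := hw.src_eq
    rw [h1, h3, xsrc_eA, xsrc_eA] at this
    exact this.symm
  obtain ⟨k, rfl⟩ := vx_eq.1 hv1
  have hs' : xsrc f' = xsrc e' := by rw [hw'.src_eq, hw.src_eq, hs]
  obtain ⟨m2', h4⟩ := same_plane hι h3 hs' hce'.symm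
  have hk : k ∉ A := by
    intro h
    apply hne
    rw [h1, h3, car_eA, car_eA, plane_eq, inv_mul_cancel_left]
    exact (ι_PA hι).2 h
  exact ⟨q, k, m, m', m2, m2', hk, by rw [h1, map_one, mul_one], h3, by rw [h2, map_one, mul_one],
    h4⟩

/-- one corner between different hexagons -/
theorem h2_one {v : List (XE A B g)} {e e' : XE A B g} {q : PP A B g} {k : G} {m m' : Dr}
    (hw : Wk (XX hg hgeo hι) v e e') (hk : k ∉ A) (h1 : e = eA m (q * Pι A B g 1))
    (h3 : e' = eA m' (q * Pι A B g k)) (hl : v.length = 2) :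
    (m = .U ∧ m' = .V' ∧ ∃ a ∈ A, ∃ b ∈ A, k = a * g * b) ∨
      (m = .V' ∧ m' = .U ∧ ∃ a ∈ A, ∃ b ∈ A, k = a * g⁻¹ * b) := by
  match v, hl with
  | [a, b], _ =>
    have h5 := hw.2.1
    have h6 := hw.2.2
    simp at h5 h6
    subst h5; subst h6
    have h7 := (List.isChain_cons_cons.1 hw.1).1
    rw [h1, h3] at h7
    have h8 := h2g_ G A B g hg hgeo hι q m m' 1 k h7 (by simpa using hk)
    simpa using h8

/-- one and two corners do not occur together -/
theorem h2_two (hA : ∀ x ∈ A, ∀ y ∈ A, x * y = y * x) {v v' : List (XE A B g)}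
    {e e' f f' : XE A B g} (hw : Wk (XX hg hgeo hι) v e e') (hw' : Wk (XX hg hgeo hι) v' f f')
    (hT' : TFst v') (hTl' : TLst v')
    (hs : xsrc e = xsrc f) (hce : car e = car f) (hce' : car e' = car f') (hne : car e ≠ car e')
    (he : (kndE e).isH = true) (he' : (kndE e').isH = true) (hl : v.length = 2)
    (hl' : v'.length = 3) : False := by
  obtain ⟨q, k, m, m', m2, m2', hk, h1, h3, h2, h4⟩ := h2_setup hw hw' hs hce hce' hne he he'
  have hgA : g ∉ A := not_mem_A hg
  have hgA' : g⁻¹ ∉ A := fun h => hgA ((A.inv_mem_iff).1 h)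
  have hf : (kndE f).isH = true := by rw [h2, kndE_eA, kndD_isH]
  have hf' : (kndE f').isH = true := by rw [h4, kndE_eA, kndD_isH]
  obtain ⟨r1, r2, r3, r4, r5, r6⟩ := h2_ G A B g hg hgeo hι v' f f' hw' hT' hTl' hf hf'
  have hone := h2_one hw hk h1 h3 hl
  have hnk : ¬ IsABA A B k := by
    intro h
    rcases hone with ⟨-, -, a, ha, b, hb, hh⟩ | ⟨-, -, a, ha, b, hb, hh⟩
    · rw [hh] at h
      exact hg (aba_mul ha hb h)
    · rw [hh] at h
      have := aba_inv (aba_mul ha hb h)
      rw [_root_.inv_inv] at this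
      exact hg this
  rcases r1 with r1 | r1
  · rcases r2 with r2 | r2
    · -- O - O
      match v', hl' with
      | [x, n, y], _ =>
        have h5 := hw'.2.1
        have h6 := hw'.2.2
        simp at h5 h6
        subst h5; subst h6
        have hch := hw'.1
        simp only [List.isChain_cons_cons, List.isChain_singleton, and_true] at hch
        have hnH : (kndE n).isH = true := by
          rcases (r6 r1 r2).2 n rfl with ⟨-, h, -⟩ | ⟨-, h, -⟩ <;> rw [h] <;> rfl
        obtain ⟨mn, qn, h7⟩ := isH_form hnH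
        have h8 : vx q = vx qn := by
          have := hw'.src n (by simp)
          rw [h2, h7, map_one, mul_one, xsrc_eA, xsrc_eA] at this
          exact this.symm
        obtain ⟨l, rfl⟩ := vx_eq.1 h8
        have hcarn : car n ≠ car x := by
          obtain ⟨a1, a2, a3, a4, a5⟩ := hT'
          simp only [List.cons.injEq] at a4
          rw [a4.1, a4.2.1]; exact a5
        have hcarn' : car n ≠ car y := by
          obtain ⟨a1, a2, a3, a4, a5⟩ := hTl'
          have h9 : [x] ++ [n, y] = a1 ++ [a2, a3] := by rw [← a4]; rfl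
          have h10 := List.append_inj_right' h9 rfl
          simp only [List.cons.injEq, and_true] at h10
          rw [h10.1, h10.2]; exact a5
        have hl1 : (1 : G)⁻¹ * l ∉ A := by
          intro h
          rw [inv_one, one_mul] at h
          apply hcarn
          rw [h7, h2, map_one, mul_one, car_eA, car_eA, eq_comm, plane_eq, inv_mul_cancel_left]
          exact (ι_PA hι).2 h
        have hl2 : l⁻¹ * k ∉ A := by
          intro h
          apply hcarn'
          rw [h7, h4, car_eA, car_eA, plane_eq]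
          have : (q * Pι A B g l)⁻¹ * (q * Pι A B g k) = Pι A B g (l⁻¹ * k) := by
            rw [map_mul, map_inv]; group
          rw [this]
          exact (ι_PA hι).2 h
        have c1 := hch.1
        have c2 := hch.2
        rw [h2, h7] at c1
        rw [h7, h4] at c2
        have g1 := h2g_ G A B g hg hgeo hι q m2 mn 1 l c1 hl1
        have g2 := h2g_ G A B g hg hgeo hι q mn m2' l k c2 hl2
        rw [inv_one, one_mul] at g1
        rcases g1 with ⟨-, e1, a, ha, b, hb, g1⟩ | ⟨-, e1, a, ha, b, hb, g1⟩ <;>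
        rcases g2 with ⟨e2, -, c, hc, d, hd, g2⟩ | ⟨e2, -, c, hc, d, hd, g2⟩
        · rw [e1] at e2; exact absurd e2 (by decide)
        · -- k = a g (b c) g⁻¹ d
          refine exc_pair hgeo hA (x := g) (k := k) hgA ?_
            ⟨a, ha, b * c, A.mul_mem hb hc, d, hd, ?_⟩ hk
          · rcases hone with ⟨-, -, a, ha, b, hb, h⟩ | ⟨-, -, a, ha, b, hb, h⟩
            · exact ⟨a, ha, b, hb, Or.inl h⟩
            · exact ⟨a, ha, b, hb, Or.inr h⟩
          · have : k = l * (l⁻¹ * k) := by group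
            rw [this, g2, g1]; group
        · refine exc_pair hgeo hA (x := g⁻¹) (k := k) hgA' ?_
            ⟨a, ha, b * c, A.mul_mem hb hc, d, hd, ?_⟩ hk
          · rcases hone with ⟨-, -, a, ha, b, hb, h⟩ | ⟨-, -, a, ha, b, hb, h⟩
            · exact ⟨a, ha, b, hb, Or.inr (by rw [_root_.inv_inv]; exact h)⟩
            · exact ⟨a, ha, b, hb, Or.inl h⟩
          · have : k = l * (l⁻¹ * k) := by group
            rw [this, g2, g1]; group
        · rw [e1] at e2; exact absurd e2 (by decide)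
    · have := r3 r1 r2
      omega
  · rcases r2 with r2 | r2
    · have := r4 r1 r2
      omega
    · rcases r5 r1 r2 with ⟨-, -, h5⟩ | h5
      · apply hnk
        have := h5 q m2 m2' 1 k h2 h4
        rwa [inv_one, one_mul] at this
      · omega

theorem h2pair_ : H2PairStmt := by
  intro G _ A B g hg hgeo hι hA v v' e e' f f' hw hw' hT hTl hT' hTl' hs hce hce' hne he he'
  obtain ⟨q, k, m, m', m2, m2', hk, h1, h3, h2, h4⟩ := h2_setup hw hw' hs hce hce' hne he he'
  have hgA : g ∉ A := not_mem_A hg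
  have hf : (kndE f).isH = true := by rw [h2, kndE_eA, kndD_isH]
  have hf' : (kndE f').isH = true := by rw [h4, kndE_eA, kndD_isH]
  obtain ⟨s1, s2, s3, s4, s5, s6⟩ := h2_ G A B g hg hgeo hι v e e' hw hT hTl he he'
  obtain ⟨r1, r2, r3, r4, r5, r6⟩ := h2_ G A B g hg hgeo hι v' f f' hw' hT' hTl' hf hf'
  have two : v.length = 2 → v'.length = 3 → False :=
    h2_two hA hw hw' hT' hTl' hs hce hce' hne he he'
  have two' : v'.length = 2 → v.length = 3 → False :=
    h2_two hA hw' hw hT hTl hs.symm hce.symm hce'.symm (by rw [← hce, ← hce']; exact hne) hf hf'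
  have le2 : 2 ≤ v.length := hw.two (by rintro rfl; exact hne rfl)
  have le2' : 2 ≤ v'.length := hw'.two (by
    rintro rfl; exact hne (by rw [hce, hce']))
  have OPQ : ∀ k, isO k = true → isPQ k = true → False := by
    intro k h1 h2; rw [isO_not_PQ h1] at h2; exact absurd h2 (by simp)
  refine ⟨?_, ?_, two⟩
  · -- lengths of walks between PQ-ends
    intro h
    have h5 : (3 ≤ v.length ∧ v.length ≠ 4) ∨ (3 ≤ v'.length ∧ v'.length ≠ 4) := by
      rcases h with ⟨a, b⟩ | ⟨a, b⟩ | ⟨a, b⟩ | ⟨a, b⟩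
      · right
        rcases r1 with r1 | r1
        · have := r3 r1 b; omega
        · rcases r5 r1 b with ⟨h, -, -⟩ | h <;> omega
      · left
        rcases s1 with s1 | s1
        · have := s3 s1 a; omega
        · rcases s5 s1 a with ⟨h, -, -⟩ | h <;> omega
      · right
        rcases r2 with r2 | r2
        · have := r4 b r2; omega
        · rcases r5 b r2 with ⟨h, -, -⟩ | h <;> omega
      · left
        rcases s2 with s2 | s2
        · have := s4 a s2; omega
        · rcases s5 a s2 with ⟨h, -, -⟩ | h <;> omega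
    by_contra hcon
    rcases h5 with ⟨h5, h6⟩ | ⟨h5, h6⟩
    · exact two' (by omega) (by omega)
    · exact two (by omega) (by omega)
  · intro hl hl'
    have o1 := h2_one hw hk h1 h3 hl
    have o2 := h2_one hw' hk h2 h4 hl'
    rcases o1 with ⟨a1, a2, a, ha, b, hb, h⟩ | ⟨a1, a2, a, ha, b, hb, h⟩ <;>
    rcases o2 with ⟨b1, b2, c, hc, d, hd, h'⟩ | ⟨b1, b2, c, hc, d, hd, h'⟩
    · exact ⟨by rw [h1, h2, a1, b1], by rw [h3, h4, a2, b2]⟩
    · exfalso
      -- a g b = c g⁻¹ d
      refine wOO hgeo hgA (A.mul_mem (A.inv_mem hc) ha) (A.mul_mem hb (A.inv_mem hd)) ?_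
      have : c⁻¹ * a * g * (b * d⁻¹ * g) = c⁻¹ * (a * g * b) * d⁻¹ * g := by group
      rw [this, ← h, h']; group
    · exfalso
      refine wOO hgeo hgA (A.mul_mem (A.inv_mem ha) hc) (A.mul_mem hd (A.inv_mem hb)) ?_
      have : a⁻¹ * c * g * (d * b⁻¹ * g) = a⁻¹ * (c * g * d) * b⁻¹ * g := by group
      rw [this, ← h', h]; group
    · exact ⟨by rw [h1, h2, a1, b1], by rw [h3, h4, a2, b2]⟩

theorem tip_ : TipStmt := by
  intro G _ A B g hg hgeo hι
  constructor
  · intro z e h
    have h1 := cor_adj h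
    rw [kndE_act] at h1
    exact adj_ne h1 rfl
  · intro q a ha ha1 e n hs hce hcn h1 h2
    have hne : actE (q * Pι A B g a * q⁻¹) e ≠ e := by
      intro h
      rcases edge_at hs with ⟨m, h', rfl⟩ | ⟨s, h', rfl⟩
      · rw [actE_eA] at h
        have e1 : q * Pι A B g a * q⁻¹ * (q * Pι A B g h') = q * Pι A B g (a * h') := by
          rw [map_mul]; group
        rw [e1] at h
        obtain ⟨-, h3⟩ := (eA_iff_G hι).1 h
        have h4 : h'⁻¹ * a⁻¹ * (h'⁻¹)⁻¹ ∈ A := by
          have : h'⁻¹ * a⁻¹ * (h'⁻¹)⁻¹ = (a * h')⁻¹ * h' := by group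
          rw [this]; exact h3
        have h5 := hgeo.aa h'⁻¹ a⁻¹ (A.inv_mem ha) h4 (inv_ne_one.2 ha1)
        apply hce
        rw [car_eA, eq_comm, plane_eq, inv_mul_cancel_left]
        exact (ι_PA hι).2 ((A.inv_mem_iff).1 h5)
      · rw [actE_eC] at h
        have e1 : q * Pι A B g a * q⁻¹ * (q * Pι A B g h') = q * Pι A B g (a * h') := by
          rw [map_mul]; group
        rw [e1] at h
        obtain ⟨-, h3⟩ := (eC_iff_G hι).1 h
        have h4 : h'⁻¹ * a⁻¹ * (h'⁻¹)⁻¹ ∈ B := by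
          have : h'⁻¹ * a⁻¹ * (h'⁻¹)⁻¹ = (a * h')⁻¹ * h' := by group
          rw [this]; exact h3
        exact inv_ne_one.2 ha1 (hgeo.ab' h'⁻¹ a⁻¹ (A.inv_mem ha) h4)
    obtain ⟨z, hz⟩ : ∃ z, z = q * Pι A B g a * q⁻¹ := ⟨_, rfl⟩
    have hF : ∀ x : XE A B g, car x ≠ plane q → ¬ InF q x := by
      rintro x hx ⟨m, rfl⟩; exact hx rfl
    have hcz : car (actE z e) ≠ plane q := by
      intro h
      apply hce
      -- z stabilizes the plane
      have key : ∀ e : XE A B g, car (actE z e) = plane q → car e = plane q := by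
        intro e
        refine XE.ind (P := fun e => car (actE z e) = plane q → car e = plane q) ?_ ?_ e
        · intro m q' h
          rw [actE_eA, car_eA, eq_comm, plane_eq, hz] at h
          rw [car_eA, eq_comm, plane_eq]
          have h5 : (Pι A B g a)⁻¹ * (q⁻¹ * (q * Pι A B g a * q⁻¹ * q')) = q⁻¹ * q' := by group
          rw [← h5]
          exact (PA A B g).mul_mem ((PA A B g).inv_mem ((ι_PA hι).2 ha)) h
        · intro s q' h
          exact absurd h.symm plane_ne_line
      exact key e h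
    have hrot := walk_rot (v := [e, n, actE z e]) ha ha1 (by
        simp only [List.isChain_cons_cons, List.isChain_singleton, and_true]
        rw [hz]
        exact ⟨h1, h2⟩) (red_three (by rw [hz]; exact hne.symm)) hs (by
        intro x hx
        simp only [List.mem_cons, List.not_mem_nil, or_false] at hx
        rcases hx with rfl | rfl | rfl
        · exact hF _ hce
        · exact hF _ hcn
        · exact hF _ hcz) rfl (by simp [hz])
    rw [← hz]
    have hkk : kndE (actE z e) = kndE e := kndE_act z e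
    have a1 : adj (kndE e) (kndE n) = true := cor_adj h1
    obtain ⟨hrot, -⟩ := hrot
    rw [ow_eq20] at hrot ⊢
    simp only [List.map_cons, List.map_nil, ow20, hkk] at hrot ⊢
    have hh : 42 ≤ wt (kndE e) (kndE n) + (wt (kndE n) (kndE e) + 0) := by
      have : ((42 : ℕ) : ℝ) ≤ ((wt (kndE e) (kndE n) + (wt (kndE n) (kndE e) + 0) : ℕ) : ℝ) := by
        have := mul_le_mul_of_nonneg_right hrot (by norm_num : (0 : ℝ) ≤ 20)
        push_cast at this ⊢
        linarith
      exact_mod_cast this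
    -- hexagon corners come back
    have hnh : hex (kndE e) (kndE n) = false := by
      by_contra hcon
      simp only [Bool.not_eq_false] at hcon
      apply hne
      have h5 := hex_back h1 (by rw [← hz] at h2; exact h2) hkk.symm hcon
      rw [← hz]; exact h5.symm
    have key : ∀ x ∈ all, ∀ y ∈ all, adj x y = true → hex x y = false → 42 ≤ wt x y + (wt y x + 0) →
        wt x y + (wt y x + 0) = 42 ∧ ((x = um ∧ y = cp) ∨ (x = cp ∧ y = um) ∨ (x = vp ∧ y = cm) ∨
          (x = cm ∧ y = vp)) := by decide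
    obtain ⟨k1, k2⟩ := key _ (mem_all _) _ (mem_all _) a1 hnh hh
    refine ⟨?_, k2⟩
    rw [k1]; norm_num

end Pool.Agent.ABA.B.H49
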